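import Pool.Agent.Lib.MP_715eb0_an.RZ.Spec

/-!
# MP_715eb0_an, hive RZ: module RZA (the mean of a Riesz product over a coset)
-/

set_option autoImplicit false

open MeasureTheory Finset

namespace Pool.Agent.Lib.MP_715eb0_an.RZ

open Pool.Agent.Lib.MP_715eb0_an

namespace RZAM

theorem prod_fourier (S : Finset ℕ) (f : ℕ → ℤ) (z : T) :
    ∏ i ∈ S, (fourier (f i) z : ℂ) = fourier (∑ i ∈ S, f i) z := by
  classical
  induction S using Finset.induction_on with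
  | empty => simp
  | insert a S ha ih => rw [Finset.prod_insert ha, Finset.sum_insert ha, fourier_add, ih]

theorem prod_c (c : ℂ) (S : Finset ℕ) (f : ℕ → ℤ) (z : T) :
    ∏ i ∈ S, c * (fourier (f i) z : ℂ) = c ^ #S * (fourier (∑ i ∈ S, f i) z : ℂ) := by
  rw [Finset.prod_mul_distrib, Finset.prod_const, prod_fourier]

theorem factor (l : ℝ) (m : ℤ) (u : ℂ) (i : ℕ) (z : T) :
    ((1 + l * g m u i z : ℝ) : ℂ) =
      1 + (((l / 2 : ℂ) * u) * (fourier (m * 2 ^ i) z : ℂ) +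
        ((l / 2 : ℂ) * (starRingEnd ℂ) u) * (fourier (-(m * 2 ^ i)) z : ℂ)) := by
  unfold g
  push_cast
  rw [Complex.re_eq_add_conj, map_mul, fourier_neg]
  ring

theorem term (l : ℝ) (m : ℤ) (u : ℂ) (S S' : Finset ℕ) (z : T) :
    (∏ i ∈ S', ((l / 2 : ℂ) * u) * (fourier (m * 2 ^ i) z : ℂ)) *
      ∏ i ∈ S \ S', ((l / 2 : ℂ) * (starRingEnd ℂ) u) * (fourier (-(m * 2 ^ i)) z : ℂ) =
      (((l / 2 : ℂ) * u) ^ #S' * ((l / 2 : ℂ) * (starRingEnd ℂ) u) ^ #(S \ S')) *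
        (fourier (m * (∑ i ∈ S', (2 : ℤ) ^ i - ∑ i ∈ S \ S', (2 : ℤ) ^ i)) z : ℂ) := by
  rw [prod_c, prod_c]
  have e : m * (∑ i ∈ S', (2 : ℤ) ^ i - ∑ i ∈ S \ S', (2 : ℤ) ^ i) =
      ∑ i ∈ S', m * 2 ^ i + ∑ i ∈ S \ S', -(m * 2 ^ i) := by
    rw [Finset.sum_neg_distrib, ← Finset.mul_sum, ← Finset.mul_sum]
    ring
  rw [e, fourier_add]
  ring

end RZAM

open RZAM in
theorem specRZA (hRZP : SpecRZP) (hRZG : SpecRZG) : SpecRZA := by
  classical
  intro x z₀ m n b u l I hm hd hmn hI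
  have key : ∀ S ⊆ I, ∀ S' ⊆ S, S.Nonempty →
      ∑ k ∈ range (addOrderOf x),
        (fourier (m * (∑ i ∈ S', (2 : ℤ) ^ i - ∑ i ∈ S \ S', (2 : ℤ) ^ i)) (z₀ + k • x) : ℂ) = 0 := by
    intro S hS S' hS' hne
    obtain ⟨h1, h2⟩ := hRZP n b S S' hS' hne (fun i hi => hI i (hS hi))
    apply hRZG x z₀ _ hd
    intro hdvd
    have hlt : |m * (∑ i ∈ S', (2 : ℤ) ^ i - ∑ i ∈ S \ S', (2 : ℤ) ^ i)| < (addOrderOf x : ℤ) := by
      rw [abs_mul]
      exact (mul_lt_mul_of_pos_left h2 (abs_pos.2 hm)).trans_le hmn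
    exact (mul_ne_zero hm h1) (Int.eq_zero_of_abs_lt_dvd hdvd hlt)
  have hC : ∑ k ∈ range (addOrderOf x), ∏ i ∈ I, ((1 + l * g m u i (z₀ + k • x) : ℝ) : ℂ) =
      (addOrderOf x : ℂ) := by
    calc ∑ k ∈ range (addOrderOf x), ∏ i ∈ I, ((1 + l * g m u i (z₀ + k • x) : ℝ) : ℂ)
        = ∑ k ∈ range (addOrderOf x), ∑ S ∈ I.powerset, ∑ S' ∈ S.powerset,
            (((l / 2 : ℂ) * u) ^ #S' * ((l / 2 : ℂ) * (starRingEnd ℂ) u) ^ #(S \ S')) *
              (fourier (m * (∑ i ∈ S', (2 : ℤ) ^ i - ∑ i ∈ S \ S', (2 : ℤ) ^ i))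
                (z₀ + k • x) : ℂ) := by
          refine Finset.sum_congr rfl fun k _ => ?_
          rw [Finset.prod_congr rfl (fun i _ => factor l m u i (z₀ + k • x)), Finset.prod_one_add]
          refine Finset.sum_congr rfl fun S _ => ?_
          rw [Finset.prod_add]
          exact Finset.sum_congr rfl fun S' _ => term l m u S S' _
      _ = ∑ S ∈ I.powerset, ∑ S' ∈ S.powerset, ∑ k ∈ range (addOrderOf x),
            (((l / 2 : ℂ) * u) ^ #S' * ((l / 2 : ℂ) * (starRingEnd ℂ) u) ^ #(S \ S')) *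
              (fourier (m * (∑ i ∈ S', (2 : ℤ) ^ i - ∑ i ∈ S \ S', (2 : ℤ) ^ i))
                (z₀ + k • x) : ℂ) := by
          rw [Finset.sum_comm]
          exact Finset.sum_congr rfl fun S _ => Finset.sum_comm
      _ = ∑ S ∈ I.powerset, if S = ∅ then (addOrderOf x : ℂ) else 0 := by
          refine Finset.sum_congr rfl fun S hS => ?_
          split_ifs with h
          · subst h
            simp
          · refine Finset.sum_eq_zero fun S' hS' => ?_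
            rw [← Finset.mul_sum, key S (Finset.mem_powerset.1 hS) S' (Finset.mem_powerset.1 hS')
              (Finset.nonempty_iff_ne_empty.2 h), mul_zero]
      _ = (addOrderOf x : ℂ) := by
          rw [Finset.sum_ite_eq' I.powerset ∅ (fun _ => (addOrderOf x : ℂ)),
            if_pos (Finset.empty_mem_powerset I)]
  have h2 : ((∑ k ∈ range (addOrderOf x), ∏ i ∈ I, (1 + l * g m u i (z₀ + k • x)) : ℝ) : ℂ) =
      ((addOrderOf x : ℝ) : ℂ) := by
    rw [Complex.ofReal_sum]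
    simp only [Complex.ofReal_prod]
    rw [hC, Complex.ofReal_natCast]
  exact Complex.ofReal_injective h2

end Pool.Agent.Lib.MP_715eb0_an.RZ
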