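import Pool.Agent.Lib.MP_715eb0_an.RZ.Spec

/-!
# Module RZB: large deviations from a Riesz product
-/

set_option autoImplicit false

open MeasureTheory Finset

namespace Pool.Agent.Lib.MP_715eb0_an.RZ

open Pool.Agent.Lib.MP_715eb0_an

namespace RZBM

lemma exp_le (t : ℝ) (h : |t| ≤ 1 / 2) : Real.exp (t - 2 * t ^ 2) ≤ 1 + t := by
  obtain ⟨h1, h2⟩ := abs_le.mp h
  have hp : 0 < 1 + t := by linarith
  rw [← Real.le_log_iff_exp_le hp]
  have h3 := Real.one_sub_inv_le_log_of_pos hp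
  refine le_trans ?_ h3
  have h4 : 1 - (1 + t)⁻¹ = t / (1 + t) := by
    field_simp
    ring
  rw [h4, le_div_iff₀ hp]
  nlinarith [mul_nonneg (sq_nonneg t) (by linarith : 0 ≤ 1 + 2 * t)]

lemma abs_g (m : ℤ) (u : ℂ) (i : ℕ) (z : T) (hu : ‖u‖ = 1) : |g m u i z| ≤ 1 := by
  unfold g
  refine (Complex.abs_re_le_norm _).trans ?_
  rw [norm_mul, hu, one_mul]
  exact (Circle.norm_coe _).le

end RZBM

theorem specRZB (hRZA : SpecRZA) : SpecRZB := by
  intro x z₀ m n b u σ I hm hx hmn hI hu hσ hσ1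
  have hA := hRZA x z₀ m n b u (σ / 4) I hm hx hmn hI
  set d := addOrderOf x with hd
  have habs : ∀ (k i : ℕ), |σ / 4 * g m u i (z₀ + k • x)| ≤ 1 / 4 := by
    intro k i
    rw [abs_mul, abs_of_pos (by linarith : 0 < σ / 4)]
    have h1 := RZBM.abs_g m u i (z₀ + k • x) hu
    have h2 : σ / 4 * |g m u i (z₀ + k • x)| ≤ σ / 4 * 1 :=
      mul_le_mul_of_nonneg_left h1 (by linarith)
    linarith
  have hpos : ∀ k : ℕ, 0 ≤ ∏ i ∈ I, (1 + σ / 4 * g m u i (z₀ + k • x)) := by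
    intro k
    apply prod_nonneg
    intro i _
    have := (abs_le.mp (habs k i)).1
    linarith
  have hlow : ∀ k : ℕ, σ * #I ≤ ∑ i ∈ I, g m u i (z₀ + k • x) →
      Real.exp (σ ^ 2 * #I / 8) ≤ ∏ i ∈ I, (1 + σ / 4 * g m u i (z₀ + k • x)) := by
    intro k hk
    have h1 : ∏ i ∈ I, Real.exp (σ / 4 * g m u i (z₀ + k • x) -
        2 * (σ / 4 * g m u i (z₀ + k • x)) ^ 2) ≤
        ∏ i ∈ I, (1 + σ / 4 * g m u i (z₀ + k • x)) := by
      apply prod_le_prod
      · intro i _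
        exact (Real.exp_pos _).le
      · intro i _
        exact RZBM.exp_le _ ((habs k i).trans (by norm_num))
    refine le_trans ?_ h1
    rw [← Real.exp_sum, Real.exp_le_exp]
    have h2 : ∑ i ∈ I, (σ / 4 * g m u i (z₀ + k • x) -
        2 * (σ / 4) ^ 2) ≤ ∑ i ∈ I, (σ / 4 * g m u i (z₀ + k • x) -
        2 * (σ / 4 * g m u i (z₀ + k • x)) ^ 2) := by
      apply sum_le_sum
      intro i _
      have h3 := RZBM.abs_g m u i (z₀ + k • x) hu
      have h4 : (g m u i (z₀ + k • x)) ^ 2 ≤ 1 := by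
        rw [← sq_abs]
        nlinarith [abs_nonneg (g m u i (z₀ + k • x))]
      rw [mul_pow]
      have h5 : (σ / 4) ^ 2 * (g m u i (z₀ + k • x)) ^ 2 ≤ (σ / 4) ^ 2 * 1 :=
        mul_le_mul_of_nonneg_left h4 (sq_nonneg _)
      linarith
    refine le_trans ?_ h2
    rw [sum_sub_distrib, ← mul_sum, sum_const, nsmul_eq_mul]
    have h6 : σ / 4 * (σ * #I) ≤ σ / 4 * ∑ i ∈ I, g m u i (z₀ + k • x) :=
      mul_le_mul_of_nonneg_left hk (by linarith)
    have h7 : σ ^ 2 * (#I : ℝ) / 8 = σ / 4 * (σ * #I) - #I * (2 * (σ / 4) ^ 2) := by ring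
    rw [h7]
    linarith
  have hsum : (((range d).filter
      (fun k => σ * #I ≤ ∑ i ∈ I, g m u i (z₀ + k • x))).card : ℝ) *
      Real.exp (σ ^ 2 * #I / 8) ≤ d := by
    rw [← hA]
    calc (((range d).filter (fun k => σ * #I ≤ ∑ i ∈ I, g m u i (z₀ + k • x))).card : ℝ) *
        Real.exp (σ ^ 2 * #I / 8)
        = ∑ _k ∈ (range d).filter (fun k => σ * #I ≤ ∑ i ∈ I, g m u i (z₀ + k • x)),
            Real.exp (σ ^ 2 * #I / 8) := by
          rw [sum_const, nsmul_eq_mul]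
      _ ≤ ∑ k ∈ (range d).filter (fun k => σ * #I ≤ ∑ i ∈ I, g m u i (z₀ + k • x)),
            ∏ i ∈ I, (1 + σ / 4 * g m u i (z₀ + k • x)) := by
          apply sum_le_sum
          intro k hk
          exact hlow k (mem_filter.mp hk).2
      _ ≤ ∑ k ∈ range d, ∏ i ∈ I, (1 + σ / 4 * g m u i (z₀ + k • x)) :=
          sum_le_sum_of_subset_of_nonneg (filter_subset _ _) (fun k _ _ => hpos k)
  rw [Real.exp_neg, ← div_eq_mul_inv, le_div_iff₀ (Real.exp_pos _)]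
  exact hsum

end Pool.Agent.Lib.MP_715eb0_an.RZ
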