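import Pool.Agent.Lib.MP_715eb0_an.RZ.Spec

set_option autoImplicit false

open MeasureTheory Finset

namespace Pool.Agent.Lib.MP_715eb0_an.RZ

open Pool.Agent.Lib.MP_715eb0_an

namespace RZCM

lemma exists_n (M d : ℕ) (hM : 0 < M) (hd : 16 * M ≤ d) :
    ∃ n : ℕ, 4 ≤ n ∧ M * 2 ^ n ≤ d ∧ (d : ℝ) < M * 2 ^ (n + 1) := by
  have h16 : 16 ≤ d / M := (Nat.le_div_iff_mul_le hM).2 hd
  refine ⟨Nat.log 2 (d / M), ?_, ?_, ?_⟩
  · exact Nat.le_log_of_pow_le (by norm_num) (by simpa using h16)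
  · have h : 2 ^ Nat.log 2 (d / M) ≤ d / M := Nat.pow_log_le_self 2 (by omega)
    calc M * 2 ^ Nat.log 2 (d / M) ≤ M * (d / M) := Nat.mul_le_mul_left _ h
      _ ≤ d := Nat.mul_div_le d M
  · have h : d / M < 2 ^ (Nat.log 2 (d / M) + 1) := Nat.lt_pow_succ_log_self (by norm_num) _
    have h2 : d < 2 ^ (Nat.log 2 (d / M) + 1) * M := (Nat.div_lt_iff_lt_mul hM).1 h
    have h3 : (d : ℝ) < 2 ^ (Nat.log 2 (d / M) + 1) * M := by exact_mod_cast h2
    rw [mul_comm]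
    exact h3

lemma log_bound (M d n : ℕ) (hM : 0 < M) (hd : 0 < d) (h : (d : ℝ) < M * 2 ^ (n + 1)) :
    Real.log d ≤ Real.log M + (n + 1) := by
  have hM' : (0 : ℝ) < M := by exact_mod_cast hM
  have hd' : (0 : ℝ) < d := by exact_mod_cast hd
  have h1 : Real.log d ≤ Real.log ((M : ℝ) * 2 ^ (n + 1)) := Real.log_le_log hd' h.le
  rw [Real.log_mul hM'.ne' (by positivity), Real.log_pow] at h1
  have h2 : Real.log 2 ≤ 1 := by
    have := Real.log_two_lt_d9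
    linarith
  have h3 : ((n + 1 : ℕ) : ℝ) * Real.log 2 ≤ (n + 1 : ℕ) :=
    mul_le_of_le_one_right (by positivity) h2
  push_cast at h1 h3
  linarith

lemma main_bound (c : ℝ) (hc : 0 < c) (M d n : ℕ) (hM : 0 < M) (hd : 0 < d)
    (h : (d : ℝ) < M * 2 ^ (n + 1)) :
    (d : ℝ) * Real.exp (-(c * n)) ≤ Real.exp (c * (1 + Real.log M)) * (d : ℝ) ^ (1 - c) := by
  have hd' : (0 : ℝ) < d := by exact_mod_cast hd
  have hl := log_bound M d n hM hd h
  have h1 : (d : ℝ) * Real.exp (-(c * n)) = Real.exp (Real.log d + -(c * n)) := by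
    rw [Real.exp_add, Real.exp_log hd']
  rw [h1, Real.rpow_def_of_pos hd', ← Real.exp_add]
  apply Real.exp_le_exp.2
  have h2 : c * Real.log d ≤ c * (Real.log M + (n + 1)) := mul_le_mul_of_nonneg_left hl hc.le
  nlinarith

lemma small_bound (c : ℝ) (hc1 : c ≤ 1) (M d : ℕ) (hd : 0 < d) (h : d ≤ 16 * M) :
    (d : ℝ) ≤ (16 * M : ℝ) * (d : ℝ) ^ (1 - c) := by
  have hd' : (0 : ℝ) < d := by exact_mod_cast hd
  have hd1 : (1 : ℝ) ≤ d := by exact_mod_cast hd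
  have h1 : (d : ℝ) = (d : ℝ) ^ c * (d : ℝ) ^ (1 - c) := by
    rw [← Real.rpow_add hd']
    simp
  have h2 : (d : ℝ) ^ c ≤ d := by
    have := Real.rpow_le_rpow_of_exponent_le hd1 hc1
    rwa [Real.rpow_one] at this
  have h3 : (d : ℝ) ≤ 16 * M := by exact_mod_cast h
  calc (d : ℝ) = (d : ℝ) ^ c * (d : ℝ) ^ (1 - c) := h1
    _ ≤ (16 * M : ℝ) * (d : ℝ) ^ (1 - c) :=
      mul_le_mul_of_nonneg_right (h2.trans h3) (Real.rpow_nonneg hd'.le _)

end RZCM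

theorem specRZC (hRZS : SpecRZS) : SpecRZC := by
  intro m τ hm hτ
  have hσ : 0 < min (τ / 2) 1 := lt_min (by linarith) one_pos
  have hσ1 : min (τ / 2) 1 ≤ 1 := min_le_right _ _
  have hσ2 : 2 * min (τ / 2) 1 ≤ τ := by
    have := min_le_left (τ / 2) (1 : ℝ)
    linarith
  obtain ⟨σ, hσd⟩ : ∃ σ : ℝ, σ = min (τ / 2) 1 := ⟨_, rfl⟩
  rw [← hσd] at hσ hσ1 hσ2
  have hM : 0 < m.natAbs := Int.natAbs_pos.2 hm
  have hc : 0 < σ ^ 2 / 32 := by positivity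
  have hc1 : σ ^ 2 / 32 ≤ 1 := by nlinarith
  have hMr : (0 : ℝ) < m.natAbs := by exact_mod_cast hM
  have hE : 0 < Real.exp (σ ^ 2 / 32 * (1 + Real.log m.natAbs)) := Real.exp_pos _
  refine ⟨σ ^ 2 / 32, 16 * (m.natAbs : ℝ) +
    8 * Real.exp (σ ^ 2 / 32 * (1 + Real.log m.natAbs)), hc, by linarith, ?_⟩
  intro x hx
  have hx' : (0 : ℝ) < addOrderOf x := by exact_mod_cast hx
  have hp : 0 ≤ (addOrderOf x : ℝ) ^ (1 - σ ^ 2 / 32) := Real.rpow_nonneg hx'.le _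
  rcases Nat.lt_or_ge (addOrderOf x) (16 * m.natAbs) with hlt | hge
  · refine ⟨1, le_refl 1, ?_⟩
    intro z₀
    have h1 : (((range (addOrderOf x)).filter
      (fun k => τ * (1 : ℕ) < ‖∑ i ∈ range 1, (fourier (m * 2 ^ i) (z₀ + k • x) : ℂ)‖)).card : ℝ) ≤
        addOrderOf x := by
      have := Finset.card_filter_le (range (addOrderOf x))
        (fun k => τ * (1 : ℕ) < ‖∑ i ∈ range 1, (fourier (m * 2 ^ i) (z₀ + k • x) : ℂ)‖)
      rw [Finset.card_range] at this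
      exact_mod_cast this
    have h2 := RZCM.small_bound (σ ^ 2 / 32) hc1 m.natAbs (addOrderOf x) hx hlt.le
    refine h1.trans (h2.trans ?_)
    apply mul_le_mul_of_nonneg_right _ hp
    linarith
  · obtain ⟨n, hn4, hn1, hn2⟩ := RZCM.exists_n m.natAbs (addOrderOf x) hM hge
    refine ⟨n, by omega, ?_⟩
    intro z₀
    have hcond : (|m| : ℤ) * 2 ^ n ≤ addOrderOf x := by
      rw [Int.abs_eq_natAbs]
      exact_mod_cast hn1
    have h1 := hRZS x z₀ m n τ σ hm hx (by omega) hcond hσ hσ1 hσ2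
    refine h1.trans ?_
    have h2 := RZCM.main_bound (σ ^ 2 / 32) hc m.natAbs (addOrderOf x) n hM hx hn2
    have h3 : σ ^ 2 * (n : ℝ) / 32 = σ ^ 2 / 32 * n := by ring
    rw [h3]
    calc 8 * ((addOrderOf x : ℝ) * Real.exp (-(σ ^ 2 / 32 * n)))
        ≤ 8 * (Real.exp (σ ^ 2 / 32 * (1 + Real.log m.natAbs)) *
          (addOrderOf x : ℝ) ^ (1 - σ ^ 2 / 32)) := by linarith
      _ = (8 * Real.exp (σ ^ 2 / 32 * (1 + Real.log m.natAbs))) *
          (addOrderOf x : ℝ) ^ (1 - σ ^ 2 / 32) := by ring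
      _ ≤ _ := by
          apply mul_le_mul_of_nonneg_right _ hp
          linarith

end Pool.Agent.Lib.MP_715eb0_an.RZ
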