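import Pool.Agent.Lib.MP_715eb0_an.RZ.Spec
import Pool.Agent.Lib.MP_715eb0_an.SW.FIY

/-!
# RZE: a power saving for the exceptional set in full cosets
-/

set_option autoImplicit false

open MeasureTheory Finset

namespace Pool.Agent.Lib.MP_715eb0_an.RZ

open Pool.Agent.Lib.MP_715eb0_an

open SW.FIYM SI.FINM in
theorem specRZE (hRZD : SpecRZD) (hTRG : SI.SpecTRG) : SpecRZE := by
  classical
  intro f ε hε
  obtain ⟨M, τ, hτ, hT⟩ := hTRG f ε hε
  have hM : ∀ m : ℤ, ∃ (c C : ℝ), 0 < c ∧ 0 < C ∧ (m ≠ 0 → ∀ x y : T,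
      (addOrderOf x).Coprime 6 → (addOrderOf y).Coprime 6 →
        (((range (addOrderOf x)).filter
          (fun k => τ < ‖∫ t, (fourier m t : ℂ) ∂(U (Orb (y + k • x)))‖)).card : ℝ) ≤
          C * (addOrderOf x : ℝ) ^ (1 - c)) := by
    intro m
    by_cases hm : m = 0
    · exact ⟨1, 1, one_pos, one_pos, fun h => absurd hm h⟩
    · obtain ⟨c, C, hc, hC, h⟩ := hRZD m τ hm hτ
      exact ⟨c, C, hc, hC, fun _ => h⟩
  choose c C hc hC hb using hM
  have hne0 : (Finset.Icc (-(M : ℤ)) M).Nonempty :=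
    ⟨0, Finset.mem_Icc.2 ⟨by omega, by omega⟩⟩
  set c₀ : ℝ := (Finset.Icc (-(M : ℤ)) M).inf' hne0 c with hc₀
  have hc₀pos : 0 < c₀ := by
    rw [hc₀, Finset.lt_inf'_iff]
    exact fun m _ => hc m
  set ms : Finset ℤ := (Finset.Icc (-(M : ℤ)) M).filter (fun m => m ≠ 0) with hms
  refine ⟨c₀, ∑ m ∈ ms, C m, hc₀pos, ?_⟩
  intro x y hx
  have hd0 : 0 < addOrderOf x := pos_of_coprime hx
  have hd1 : (1 : ℝ) ≤ addOrderOf x := by exact_mod_cast hd0
  have hCs : 0 ≤ ∑ m ∈ ms, C m := Finset.sum_nonneg fun m _ => (hC m).le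
  by_cases hne : {k : ℕ | k < addOrderOf x ∧ ∃ μ : Measure T, Erg μ ∧ μ {y + k • x} ≠ 0 ∧
      ε < |∫ t, f t ∂μ - ∫ t in (0 : ℝ)..1, f ((t : ℝ) : T)|}.Nonempty
  swap
  · rw [Set.not_nonempty_iff_eq_empty.mp hne, Set.ncard_empty]
    push_cast
    exact mul_nonneg hCs (Real.rpow_nonneg (by linarith) _)
  have hy : (addOrderOf y).Coprime 6 := by
    obtain ⟨k, hk, μ, hμ, hat, hbig⟩ := hne
    have h1 := order_atom hμ hat
    rw [← natCast_zsmul] at h1
    exact order_sub (k : ℤ) hx h1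
  have hsub : {k : ℕ | k < addOrderOf x ∧ ∃ μ : Measure T, Erg μ ∧ μ {y + k • x} ≠ 0 ∧
      ε < |∫ t, f t ∂μ - ∫ t in (0 : ℝ)..1, f ((t : ℝ) : T)|} ⊆
      ((ms.biUnion fun m => (range (addOrderOf x)).filter
        (fun k => τ < ‖∫ t, (fourier m t : ℂ) ∂(U (Orb (y + k • x)))‖) : Finset ℕ) : Set ℕ) := by
    rintro k ⟨hk, μ, hμ, hat, hbig⟩
    obtain ⟨h2, h3⟩ := eq_U hμ hat
    rw [Finset.mem_coe, Finset.mem_biUnion]
    by_contra hcon
    push Not at hcon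
    have h4 := hT μ h3 (by
      intro m hm0 hmM
      by_contra h6
      push Not at h6
      apply hcon m (mem_filter.mpr ⟨mem_Icc.mpr (abs_le.mp hmM), hm0⟩)
      rw [Finset.mem_filter]
      refine ⟨mem_range.mpr hk, ?_⟩
      rw [← h2]
      exact h6)
    linarith
  have h1 : (Set.ncard {k : ℕ | k < addOrderOf x ∧ ∃ μ : Measure T, Erg μ ∧ μ {y + k • x} ≠ 0 ∧
      ε < |∫ t, f t ∂μ - ∫ t in (0 : ℝ)..1, f ((t : ℝ) : T)|} : ℝ) ≤
      ((ms.biUnion fun m => (range (addOrderOf x)).filter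
        (fun k => τ < ‖∫ t, (fourier m t : ℂ) ∂(U (Orb (y + k • x)))‖)).card : ℝ) := by
    have h3 := Set.ncard_le_ncard hsub (Finset.finite_toSet _)
    rw [Set.ncard_coe_finset] at h3
    exact_mod_cast h3
  refine h1.trans ?_
  have h2 : ((ms.biUnion fun m => (range (addOrderOf x)).filter
        (fun k => τ < ‖∫ t, (fourier m t : ℂ) ∂(U (Orb (y + k • x)))‖)).card : ℝ) ≤
      ∑ m ∈ ms, (((range (addOrderOf x)).filter
        (fun k => τ < ‖∫ t, (fourier m t : ℂ) ∂(U (Orb (y + k • x)))‖)).card : ℝ) := by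
    exact_mod_cast Finset.card_biUnion_le
  refine h2.trans ?_
  rw [Finset.sum_mul]
  refine Finset.sum_le_sum fun m hm => ?_
  have hm' := mem_filter.mp hm
  refine (hb m hm'.2 x y hx hy).trans ?_
  refine mul_le_mul_of_nonneg_left ?_ (hC m).le
  refine Real.rpow_le_rpow_of_exponent_le hd1 ?_
  have h3 : c₀ ≤ c m := Finset.inf'_le c hm'.1
  linarith

end Pool.Agent.Lib.MP_715eb0_an.RZ
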