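import Pool.Agent.Lib.MP_715eb0_an.RZ.Spec

/-!
# RZG: a character has mean `0` over a coset
-/

set_option autoImplicit false

open MeasureTheory Finset

namespace Pool.Agent.Lib.MP_715eb0_an.RZ

open Pool.Agent.Lib.MP_715eb0_an

theorem specRZG : SpecRZG := by
  intro x z₀ a _ hdvd
  have hw1 : (AddCircle.toCircle (a • x) : ℂ) ≠ 1 := by
    intro h
    apply hdvd
    rw [addOrderOf_dvd_iff_zsmul_eq_zero]
    have h1 : AddCircle.toCircle (a • x) = AddCircle.toCircle (0 : T) := by
      rw [AddCircle.toCircle_zero]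
      exact Circle.ext (by rw [h, Circle.coe_one])
    exact AddCircle.injective_toCircle one_ne_zero h1
  have hwd : (AddCircle.toCircle (a • x) : ℂ) ^ addOrderOf x = 1 := by
    rw [← Circle.coe_pow, ← AddCircle.toCircle_nsmul, smul_comm, addOrderOf_nsmul_eq_zero,
      smul_zero, AddCircle.toCircle_zero, Circle.coe_one]
  have hterm : ∀ k ∈ range (addOrderOf x), (fourier a (z₀ + k • x) : ℂ) =
      (AddCircle.toCircle (a • z₀) : ℂ) * (AddCircle.toCircle (a • x) : ℂ) ^ k := by
    intro k _
    rw [fourier_apply, smul_add, AddCircle.toCircle_add, Circle.coe_mul, smul_comm a k x,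
      AddCircle.toCircle_nsmul, Circle.coe_pow]
  rw [Finset.sum_congr rfl hterm, ← Finset.mul_sum, geom_sum_eq hw1, hwd, sub_self, zero_div,
    mul_zero]

end Pool.Agent.Lib.MP_715eb0_an.RZ
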