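import Pool.Agent.Lib.MP_715eb0_an.RZ.Spec

/-!
# MP_715eb0_an: module RZK: change of the parameter
-/

set_option autoImplicit false

open MeasureTheory Finset

namespace Pool.Agent.Lib.MP_715eb0_an.RZ

open Pool.Agent.Lib.MP_715eb0_an

/-- **RZK** -/
theorem specRZK : SpecRZK := by
  intro x y r hd hr P _
  have hmod : ∀ n : ℕ, (n % addOrderOf x) • x = n • x := by
    intro n
    exact mod_addOrderOf_nsmul x n
  refine Finset.card_le_card_of_injOn (fun k => (r * k) % addOrderOf x) ?_ ?_
  · intro k hk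
    have hk' := Finset.mem_filter.1 (Finset.mem_coe.1 hk)
    refine Finset.mem_coe.2 (Finset.mem_filter.2 ⟨Finset.mem_range.2 (Nat.mod_lt _ hd), ?_⟩)
    have h1 : r • (y + k • x) = r • y + ((r * k) % addOrderOf x) • x := by
      rw [hmod, smul_add, mul_smul]
    have h2 := hk'.2
    rw [h1] at h2
    exact h2
  · intro k hk k' hk' he
    have h1 : k < addOrderOf x := Finset.mem_range.1 (Finset.mem_filter.1 (Finset.mem_coe.1 hk)).1
    have h2 : k' < addOrderOf x :=
      Finset.mem_range.1 (Finset.mem_filter.1 (Finset.mem_coe.1 hk')).1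
    have h3 : r * k ≡ r * k' [MOD addOrderOf x] := he
    have h4 : k ≡ k' [MOD addOrderOf x] :=
      Nat.ModEq.cancel_left_of_coprime (Nat.coprime_comm.1 hr) h3
    exact Nat.ModEq.eq_of_lt_of_lt h4 h1 h2

end Pool.Agent.Lib.MP_715eb0_an.RZ
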