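import Pool.Agent.Lib.MP_715eb0_an.RZ.Spec
import Pool.Agent.Lib.MP_715eb0_an.SI.MOM

/-!
# MP_715eb0_an: averaging along the orbit of the doubling (module RZM)
-/

set_option autoImplicit false

open MeasureTheory Finset

namespace Pool.Agent.Lib.MP_715eb0_an.RZ

open Pool.Agent.Lib.MP_715eb0_an

namespace RZMM

/-- The character at a doubled point. -/
lemma fourier_double (m : ℤ) (y : T) : (fourier m (2 • y) : ℂ) = (fourier (m * 2) y : ℂ) := by
  rw [fourier_apply, fourier_apply]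
  have h : m • (2 • y) = (m * 2) • y := by
    rw [mul_smul]
    congr 1
  rw [h]

/-- The orbit measure is invariant under the doubling. -/
lemma double {z : T} (hz : (addOrderOf z).Coprime 6) (m : ℤ) :
    ∫ t, (fourier m t : ℂ) ∂(U (Orb z)) = ∫ t, (fourier (m * 2) t : ℂ) ∂(U (Orb z)) := by
  classical
  obtain ⟨h1, h2⟩ := two_Orb hz (Or.inl rfl : (2 : ℕ) = 2 ∨ (2 : ℕ) = 3)
  have him : (Orb z).image (fun x => 2 • x) = Orb z := by
    ext y
    simp only [mem_image]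
    constructor
    · rintro ⟨x, hx, rfl⟩
      exact h1 x hx
    · exact fun hy => h2 y hy
  have hinj : Set.InjOn (fun x : T => 2 • x) (Orb z : Set T) := by
    rw [← card_image_iff, him]
  have e1 := integral_U (S := Orb z) (fourier m : C(T, ℂ))
  have e2 := integral_U (S := Orb z) (fourier (m * 2) : C(T, ℂ))
  rw [e1, e2]
  congr 1
  calc ∑ y ∈ Orb z, (fourier m y : ℂ)
      = ∑ y ∈ (Orb z).image (fun x => 2 • x), (fourier m y : ℂ) := by rw [him]
    _ = ∑ y ∈ Orb z, (fourier m (2 • y) : ℂ) := sum_image hinj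
    _ = ∑ y ∈ Orb z, (fourier (m * 2) y : ℂ) := sum_congr rfl (fun y _ => fourier_double m y)

/-- The iterate. -/
lemma iter {z : T} (hz : (addOrderOf z).Coprime 6) (m : ℤ) (i : ℕ) :
    ∫ t, (fourier m t : ℂ) ∂(U (Orb z)) = ∫ t, (fourier (m * 2 ^ i) t : ℂ) ∂(U (Orb z)) := by
  induction i with
  | zero => rw [pow_zero, mul_one]
  | succ i ih => rw [ih, double hz, pow_succ, mul_assoc]

end RZMM

open RZMM in
theorem specRZM (hAVG : SI.SpecAVG) : SpecRZM := by
  intro q hq z hz m n hn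
  have hn0 : (n : ℂ) ≠ 0 := by
    have h : n ≠ 0 := by omega
    exact_mod_cast h
  have hcop := SI.MOMM.cop hq hz
  have h1 : ∀ i ∈ range n, ∫ t, (fourier m t : ℂ) ∂(U (Orb z)) =
      (cnt q : ℂ)⁻¹ * ∑ r ∈ R q, (fourier (m * 2 ^ i) (r • z) : ℂ) := by
    intro i _
    rw [iter hcop m i]
    exact SI.MOMM.integral_eq hAVG hq hz (m * 2 ^ i)
  have h2 := sum_congr rfl h1
  rw [sum_const, card_range, nsmul_eq_mul] at h2
  have h3 : ∫ t, (fourier m t : ℂ) ∂(U (Orb z)) =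
      (n : ℂ)⁻¹ * ∑ i ∈ range n, (cnt q : ℂ)⁻¹ * ∑ r ∈ R q, (fourier (m * 2 ^ i) (r • z) : ℂ) := by
    rw [← h2, ← mul_assoc, inv_mul_cancel₀ hn0, one_mul]
  rw [h3, ← mul_sum, ← mul_sum, sum_comm]
  ring

end Pool.Agent.Lib.MP_715eb0_an.RZ
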