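import Pool.Agent.Lib.MP_715eb0_an.RZ.Spec

/-!
# RZP: signed sums of powers of two from one parity class
-/

set_option autoImplicit false

open MeasureTheory Finset

namespace Pool.Agent.Lib.MP_715eb0_an.RZ

open Pool.Agent.Lib.MP_715eb0_an

namespace RZPM

theorem rest (b j : ℕ) (S : Finset ℕ) (hj : j ∈ S) (hmax : ∀ i ∈ S, i ≤ j)
    (hS : ∀ i ∈ S, i % 2 = b) : 2 * ∑ i ∈ S.erase j, (2 : ℤ) ^ i < 2 ^ j := by
  have h1 : 2 * ∑ i ∈ S.erase j, (2 : ℤ) ^ i = ∑ i ∈ (S.erase j).image (fun i => i + 1), (2 : ℤ) ^ i := by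
    rw [Finset.sum_image (by intro a _ c _ h; exact Nat.succ_injective h), Finset.mul_sum]
    exact Finset.sum_congr rfl fun i _ => by rw [pow_succ']
  have h2 : (S.erase j).image (fun i => i + 1) ⊆ Finset.range j := by
    intro k hk
    obtain ⟨i, hi, rfl⟩ := Finset.mem_image.1 hk
    obtain ⟨hij, hiS⟩ := Finset.mem_erase.1 hi
    have h3 := hmax i hiS
    have h4 := hS i hiS
    have h5 := hS j hj
    rw [Finset.mem_range]
    omega
  have h3 : ∑ i ∈ (S.erase j).image (fun i => i + 1), (2 : ℤ) ^ i ≤ ∑ i ∈ Finset.range j, (2 : ℤ) ^ i :=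
    Finset.sum_le_sum_of_subset_of_nonneg h2 fun i _ _ => by positivity
  have h4 : (2 - 1 : ℤ) * ∑ i ∈ Finset.range j, (2 : ℤ) ^ i = 2 ^ j - 1 := mul_geom_sum (2 : ℤ) j
  linarith

end RZPM

theorem specRZP : SpecRZP := by
  intro n b S S' hsub hne hS
  obtain ⟨j, hj, hmax⟩ := S.exists_max_image id hne
  have hR := RZPM.rest b j S hj hmax fun i hi => (hS i hi).2
  have hR0 : 0 ≤ ∑ i ∈ S.erase j, (2 : ℤ) ^ i := Finset.sum_nonneg fun i _ => by positivity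
  have htot : (2 : ℤ) ^ j + ∑ i ∈ S.erase j, (2 : ℤ) ^ i = ∑ i ∈ S, (2 : ℤ) ^ i :=
    Finset.add_sum_erase S (fun i => (2 : ℤ) ^ i) hj
  have hsd : ∑ i ∈ S \ S', (2 : ℤ) ^ i + ∑ i ∈ S', (2 : ℤ) ^ i = ∑ i ∈ S, (2 : ℤ) ^ i :=
    Finset.sum_sdiff hsub
  have hA0 : 0 ≤ ∑ i ∈ S', (2 : ℤ) ^ i := Finset.sum_nonneg fun i _ => by positivity
  have hB0 : 0 ≤ ∑ i ∈ S \ S', (2 : ℤ) ^ i := Finset.sum_nonneg fun i _ => by positivity
  have hn : (2 : ℤ) ^ (j + 1) ≤ 2 ^ n := pow_le_pow_right₀ (by norm_num) (hS j hj).1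
  rw [pow_succ] at hn
  by_cases hjS : j ∈ S'
  · have hA : (2 : ℤ) ^ j ≤ ∑ i ∈ S', (2 : ℤ) ^ i :=
      Finset.single_le_sum (f := fun i => (2 : ℤ) ^ i) (fun i _ => by positivity) hjS
    refine ⟨fun h => by linarith, ?_⟩
    rw [abs_lt]
    constructor <;> linarith
  · have hB : (2 : ℤ) ^ j ≤ ∑ i ∈ S \ S', (2 : ℤ) ^ i :=
      Finset.single_le_sum (f := fun i => (2 : ℤ) ^ i) (fun i _ => by positivity)
        (Finset.mem_sdiff.2 ⟨hj, hjS⟩)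
    refine ⟨fun h => by linarith, ?_⟩
    rw [abs_lt]
    constructor <;> linarith

end Pool.Agent.Lib.MP_715eb0_an.RZ
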