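import Pool.Agent.Lib.MP_715eb0_an.RZ.Spec

/-!
# MP_715eb0_an, module RZS (helper28)
-/

set_option autoImplicit false

open MeasureTheory Finset

namespace Pool.Agent.Lib.MP_715eb0_an.RZ

open Pool.Agent.Lib.MP_715eb0_an

namespace RZSM

/-- the four numbers -/
noncomputable def U4 : Fin 4 → ℂ := ![1, -1, Complex.I, -Complex.I]

theorem norm_U4 (j : Fin 4) : ‖U4 j‖ = 1 := by
  fin_cases j <;> simp [U4]

theorem exists_u (W : ℂ) (s : ℝ) (h : 2 * s < ‖W‖) : ∃ j : Fin 4, s < (U4 j * W).re := by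
  have h1 := Complex.norm_le_abs_re_add_abs_im W
  by_contra hcon
  push Not at hcon
  have h2 := hcon 0
  have h3 := hcon 1
  have h4 := hcon 2
  have h5 := hcon 3
  simp [U4] at h2 h3 h4 h5
  have h6 : |W.re| ≤ s := abs_le.2 ⟨by linarith, h2⟩
  have h7 : |W.im| ≤ s := abs_le.2 ⟨by linarith, by linarith⟩
  linarith

/-- one parity class -/
def Ib (n b : ℕ) : Finset ℕ := (range n).filter fun i => i % 2 = b

theorem mem_Ib {n b i : ℕ} (h : i ∈ Ib n b) : i < n ∧ i % 2 = b := by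
  rw [Ib, mem_filter, mem_range] at h
  exact h

theorem sum_Ib (n : ℕ) (f : ℕ → ℝ) :
    ∑ i ∈ range n, f i = ∑ i ∈ Ib n 0, f i + ∑ i ∈ Ib n 1, f i := by
  rw [← sum_filter_add_sum_filter_not (range n) (fun i => i % 2 = 0)]
  congr 1
  refine sum_congr ?_ fun _ _ => rfl
  ext i
  rw [Ib, mem_filter, mem_filter]
  have : i % 2 = 0 ∨ i % 2 = 1 := by omega
  constructor
  · rintro ⟨h1, h2⟩
    exact ⟨h1, by omega⟩
  · rintro ⟨h1, h2⟩
    exact ⟨h1, by omega⟩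

theorem card_Ib (n : ℕ) : (#(Ib n 0) : ℝ) + #(Ib n 1) = n := by
  have h := sum_Ib n fun _ => 1
  simp only [sum_const, card_range, nsmul_eq_mul, mul_one] at h
  exact h.symm

theorem card_Ib_ge (n b : ℕ) (hb : b < 2) (hn : 2 ≤ n) : (n : ℝ) / 4 ≤ #(Ib n b) := by
  have h1 : n / 2 ≤ #(Ib n b) := by
    calc n / 2 = #((range (n / 2)).image fun j => 2 * j + b) := by
          rw [card_image_of_injective, card_range]
          intro i j h
          have : 2 * i + b = 2 * j + b := h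
          omega
      _ ≤ #(Ib n b) := by
          refine card_le_card fun i hi => ?_
          rw [mem_image] at hi
          obtain ⟨j, hj, rfl⟩ := hi
          rw [mem_range] at hj
          rw [Ib, mem_filter, mem_range]
          constructor <;> omega
  have h2 : n ≤ 4 * #(Ib n b) := by omega
  have h3 : (n : ℝ) ≤ 4 * #(Ib n b) := by exact_mod_cast h2
  linarith

end RZSM

theorem specRZS (hRZB : SpecRZB) : SpecRZS := by
  intro x z₀ m n τ σ hm hx hn hmn hσ hσ1 hτ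
  set d := addOrderOf x with hd
  let S : Fin 4 × Fin 2 → Finset ℕ := fun p => (range d).filter fun k =>
    σ * #(RZSM.Ib n (p.2 : ℕ)) ≤ ∑ i ∈ RZSM.Ib n (p.2 : ℕ), g m (RZSM.U4 p.1) i (z₀ + k • x)
  have hS : ∀ p, ((S p).card : ℝ) ≤ d * Real.exp (-(σ ^ 2 * n / 32)) := by
    intro p
    refine (hRZB x z₀ m n (p.2 : ℕ) (RZSM.U4 p.1) σ (RZSM.Ib n (p.2 : ℕ)) hm hx hmn
      (fun i hi => RZSM.mem_Ib hi) (RZSM.norm_U4 _) hσ hσ1).trans ?_
    refine mul_le_mul_of_nonneg_left (Real.exp_le_exp.2 ?_) (Nat.cast_nonneg _)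
    have h1 := RZSM.card_Ib_ge n (p.2 : ℕ) p.2.2 hn
    have h2 : 0 ≤ σ ^ 2 := sq_nonneg _
    nlinarith
  have hsub : ((range d).filter
      (fun k => τ * n < ‖∑ i ∈ range n, (fourier (m * 2 ^ i) (z₀ + k • x) : ℂ)‖)) ⊆
      univ.biUnion S := by
    intro k hk
    rw [mem_filter] at hk
    obtain ⟨hk1, hk2⟩ := hk
    have hn0 : (0 : ℝ) ≤ n := Nat.cast_nonneg _
    obtain ⟨j, hj⟩ := RZSM.exists_u _ (σ * n) (lt_of_le_of_lt (by nlinarith) hk2)
    have h1 : (RZSM.U4 j * ∑ i ∈ range n, (fourier (m * 2 ^ i) (z₀ + k • x) : ℂ)).re =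
        ∑ i ∈ range n, g m (RZSM.U4 j) i (z₀ + k • x) := by
      rw [mul_sum, Complex.re_sum]
      rfl
    rw [h1, RZSM.sum_Ib] at hj
    have h2 := RZSM.card_Ib n
    rw [mem_biUnion]
    by_cases hb : σ * #(RZSM.Ib n 0) ≤ ∑ i ∈ RZSM.Ib n 0, g m (RZSM.U4 j) i (z₀ + k • x)
    · exact ⟨(j, 0), mem_univ _, mem_filter.2 ⟨hk1, hb⟩⟩
    · refine ⟨(j, 1), mem_univ _, mem_filter.2 ⟨hk1, ?_⟩⟩
      show σ * #(RZSM.Ib n 1) ≤ ∑ i ∈ RZSM.Ib n 1, g m (RZSM.U4 j) i (z₀ + k • x)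
      push Not at hb
      rw [← h2, mul_add] at hj
      linarith
  calc (((range d).filter
      (fun k => τ * n < ‖∑ i ∈ range n, (fourier (m * 2 ^ i) (z₀ + k • x) : ℂ)‖)).card : ℝ)
      ≤ ((univ.biUnion S).card : ℝ) := by exact_mod_cast card_le_card hsub
    _ ≤ ((∑ p, (S p).card : ℕ) : ℝ) := by exact_mod_cast card_biUnion_le
    _ = ∑ p, ((S p).card : ℝ) := by push_cast; rfl
    _ ≤ ∑ _p : Fin 4 × Fin 2, d * Real.exp (-(σ ^ 2 * n / 32)) := sum_le_sum fun p _ => hS p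
    _ = 8 * (d * Real.exp (-(σ ^ 2 * n / 32))) := by
        rw [sum_const, card_univ, Fintype.card_prod, Fintype.card_fin, Fintype.card_fin,
          nsmul_eq_mul]
        norm_num

end Pool.Agent.Lib.MP_715eb0_an.RZ
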