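import Pool.Agent.Lib.MP_715eb0_an.SI.AVG
import Pool.Agent.Lib.MP_715eb0_an.SI.TRG
import Pool.Agent.Lib.MP_715eb0_an.RZ.RZP
import Pool.Agent.Lib.MP_715eb0_an.RZ.RZG
import Pool.Agent.Lib.MP_715eb0_an.RZ.RZA
import Pool.Agent.Lib.MP_715eb0_an.RZ.RZB
import Pool.Agent.Lib.MP_715eb0_an.RZ.RZS
import Pool.Agent.Lib.MP_715eb0_an.RZ.RZC
import Pool.Agent.Lib.MP_715eb0_an.RZ.RZM
import Pool.Agent.Lib.MP_715eb0_an.RZ.RZK
import Pool.Agent.Lib.MP_715eb0_an.RZ.RZD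
import Pool.Agent.Lib.MP_715eb0_an.RZ.RZE

/-!
# MP_715eb0_an: a power saving for the exceptional set in full cosets
-/

namespace Pool.Agent.Lib.MP_715eb0_an.RZ

/-- The theorem. -/
theorem main : SpecRZE :=
  specRZE (specRZD (specRZC (specRZS (specRZB (specRZA specRZP specRZG)))) (specRZM SI.specAVG)
    specRZK) SI.specTRG

end Pool.Agent.Lib.MP_715eb0_an.RZ
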