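import Pool.Agent.Lib.MP_715eb0_an.RZ.SpecT
import Pool.Agent.Lib.MP_715eb0_an.RZ.RZC

set_option autoImplicit false

open MeasureTheory Finset

namespace Pool.Agent.Lib.MP_715eb0_an.RZ

open Pool.Agent.Lib.MP_715eb0_an

namespace RZNM

lemma n_bound (M d n : ℕ) (hM : 0 < M) (hd : 0 < d) (h : M * 2 ^ n ≤ d) :
    (n : ℝ) ≤ 2 * Real.log d + 1 := by
  have hd' : (0 : ℝ) < d := by exact_mod_cast hd
  have h0 : 2 ^ n ≤ d := by
    calc 2 ^ n ≤ M * 2 ^ n := Nat.le_mul_of_pos_left _ hM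
      _ ≤ d := h
  have h1 : ((2 : ℝ) ^ n) ≤ d := by exact_mod_cast h0
  have h2 : Real.log ((2 : ℝ) ^ n) ≤ Real.log d := Real.log_le_log (by positivity) h1
  rw [Real.log_pow] at h2
  have h3 : (1 / 2 : ℝ) ≤ Real.log 2 := by
    have := Real.log_two_gt_d9
    linarith
  have h4 : (n : ℝ) * (1 / 2) ≤ (n : ℝ) * Real.log 2 :=
    mul_le_mul_of_nonneg_left h3 (Nat.cast_nonneg n)
  linarith

end RZNM

theorem specRZN (hRZS : SpecRZS) : SpecRZN := by
  intro m τ hm hτ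
  have hσ : 0 < min (τ / 2) 1 := lt_min (by linarith) one_pos
  have hσ1 : min (τ / 2) 1 ≤ 1 := min_le_right _ _
  have hσ2 : 2 * min (τ / 2) 1 ≤ τ := by
    have := min_le_left (τ / 2) (1 : ℝ)
    linarith
  obtain ⟨σ, hσd⟩ : ∃ σ : ℝ, σ = min (τ / 2) 1 := ⟨_, rfl⟩
  rw [← hσd] at hσ hσ1 hσ2
  have hM : 0 < m.natAbs := Int.natAbs_pos.2 hm
  have hc : 0 < σ ^ 2 / 32 := by positivity
  have hc1 : σ ^ 2 / 32 ≤ 1 := by nlinarith
  have hMr : (0 : ℝ) < m.natAbs := by exact_mod_cast hM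
  have hE : 0 < Real.exp (σ ^ 2 / 32 * (1 + Real.log m.natAbs)) := Real.exp_pos _
  refine ⟨σ ^ 2 / 32, 16 * (m.natAbs : ℝ) +
    8 * Real.exp (σ ^ 2 / 32 * (1 + Real.log m.natAbs)), hc, by linarith, ?_⟩
  intro x hx
  have hx' : (0 : ℝ) < addOrderOf x := by exact_mod_cast hx
  have hx1 : (1 : ℝ) ≤ addOrderOf x := by exact_mod_cast hx
  have hp : 0 ≤ (addOrderOf x : ℝ) ^ (1 - σ ^ 2 / 32) := Real.rpow_nonneg hx'.le _
  rcases Nat.lt_or_ge (addOrderOf x) (16 * m.natAbs) with hlt | hge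
  · refine ⟨1, le_refl 1, ?_, ?_⟩
    · have := Real.log_nonneg hx1
      push_cast
      linarith
    intro z₀
    have h1 : (((range (addOrderOf x)).filter
      (fun k => τ * (1 : ℕ) < ‖∑ i ∈ range 1, (fourier (m * 2 ^ i) (z₀ + k • x) : ℂ)‖)).card : ℝ) ≤
        addOrderOf x := by
      have := Finset.card_filter_le (range (addOrderOf x))
        (fun k => τ * (1 : ℕ) < ‖∑ i ∈ range 1, (fourier (m * 2 ^ i) (z₀ + k • x) : ℂ)‖)
      rw [Finset.card_range] at this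
      exact_mod_cast this
    have h2 := RZCM.small_bound (σ ^ 2 / 32) hc1 m.natAbs (addOrderOf x) hx hlt.le
    refine h1.trans (h2.trans ?_)
    apply mul_le_mul_of_nonneg_right _ hp
    linarith
  · obtain ⟨n, hn4, hn1, hn2⟩ := RZCM.exists_n m.natAbs (addOrderOf x) hM hge
    refine ⟨n, by omega, RZNM.n_bound m.natAbs (addOrderOf x) n hM hx hn1, ?_⟩
    intro z₀
    have hcond : (|m| : ℤ) * 2 ^ n ≤ addOrderOf x := by
      rw [Int.abs_eq_natAbs]
      exact_mod_cast hn1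
    have h1 := hRZS x z₀ m n τ σ hm hx (by omega) hcond hσ hσ1 hσ2
    refine h1.trans ?_
    have h2 := RZCM.main_bound (σ ^ 2 / 32) hc m.natAbs (addOrderOf x) n hM hx hn2
    have h3 : σ ^ 2 * (n : ℝ) / 32 = σ ^ 2 / 32 * n := by ring
    rw [h3]
    calc 8 * ((addOrderOf x : ℝ) * Real.exp (-(σ ^ 2 / 32 * n)))
        ≤ 8 * (Real.exp (σ ^ 2 / 32 * (1 + Real.log m.natAbs)) *
          (addOrderOf x : ℝ) ^ (1 - σ ^ 2 / 32)) := by linarith
      _ = (8 * Real.exp (σ ^ 2 / 32 * (1 + Real.log m.natAbs))) *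
          (addOrderOf x : ℝ) ^ (1 - σ ^ 2 / 32) := by ring
      _ ≤ _ := by
          apply mul_le_mul_of_nonneg_right _ hp
          linarith

end Pool.Agent.Lib.MP_715eb0_an.RZ
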