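import Pool.Agent.Lib.MP_715eb0_an.RZ.SpecT

/-!
# MP_715eb0_an, module RZT: double counting over a square of times (helper28)
-/

set_option autoImplicit false

open MeasureTheory Finset

namespace Pool.Agent.Lib.MP_715eb0_an.RZ

open Pool.Agent.Lib.MP_715eb0_an
open Pool.Agent.Lib.MP_715eb0_an.SW (sq)
open Pool.Agent.Lib.MP_715eb0_an.NC (V)

namespace RZTM

theorem one_le_log {d : ℕ} (hd : 3 ≤ d) : 1 ≤ Real.log d := by
  have h0 : (3 : ℝ) ≤ d := by exact_mod_cast hd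
  rw [Real.le_log_iff_exp_le (by linarith)]
  have := Real.exp_one_lt_d9
  linarith

end RZTM

theorem specRZT (hRZN : SpecRZN) (hRZK : SpecRZK) (hRZU : SpecRZU) : SpecRZT := by
  intro m τ hm hτ
  obtain ⟨c, C0, hc, hC0, h⟩ := hRZN m (τ / 2) hm (by positivity)
  refine ⟨c, ⌈12 / τ⌉₊ + 12 + ⌈4 * C0 / τ⌉₊, hc, ?_⟩
  intro x y hx n hn
  have hdpos := pos_of_coprime hx
  set d := addOrderOf x with hd
  have hCa : 12 / τ + 12 ≤ ((⌈12 / τ⌉₊ + 12 + ⌈4 * C0 / τ⌉₊ : ℕ) : ℝ) := by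
    push_cast
    have h1 := Nat.le_ceil (12 / τ)
    have h2 : (0 : ℝ) ≤ (⌈4 * C0 / τ⌉₊ : ℝ) := Nat.cast_nonneg _
    linarith
  have hCb : 4 * C0 / τ ≤ ((⌈12 / τ⌉₊ + 12 + ⌈4 * C0 / τ⌉₊ : ℕ) : ℝ) := by
    push_cast
    have h1 := Nat.le_ceil (4 * C0 / τ)
    have h2 : (0 : ℝ) ≤ (⌈12 / τ⌉₊ : ℝ) := Nat.cast_nonneg _
    linarith
  have hτ12 : 0 < 12 / τ := by positivity
  set C : ℕ := ⌈12 / τ⌉₊ + 12 + ⌈4 * C0 / τ⌉₊ with hC
  by_cases hd1 : d = 1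
  · rw [hd1]
    have h1 : (((range 1).filter (fun k =>
        τ * (n : ℝ) ^ 2 < ‖∑ p ∈ sq n, (fourier m (V p • (y + k • x)) : ℂ)‖)).card : ℝ) ≤ 1 := by
      have h2 := card_filter_le (range 1) (fun k =>
        τ * (n : ℝ) ^ 2 < ‖∑ p ∈ sq n, (fourier m (V p • (y + k • x)) : ℂ)‖)
      rw [card_range] at h2
      exact_mod_cast h2
    rw [Nat.cast_one, Real.one_rpow, mul_one]
    linarith
  have hd3 : 3 ≤ d := by
    by_contra hcon
    have h2 : d = 2 := by omega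
    rw [h2] at hx
    revert hx
    decide
  have hlog := RZTM.one_le_log hd3
  obtain ⟨n₀, hn1, hn2, hZ⟩ := h x hdpos
  rw [← hd] at hn2 hZ
  have hCl : (12 / τ + 12) * Real.log d ≤ n :=
    (mul_le_mul_of_nonneg_right hCa (by linarith)).trans hn
  have hn3 : (n₀ : ℝ) ≤ 3 * Real.log d := by linarith
  have h12 : 12 / τ * τ = 12 := by field_simp
  have hb1 : 4 * (n₀ : ℝ) ≤ τ * n := by
    have h1 : 12 / τ * Real.log d ≤ n := by nlinarith
    have h2 : τ * (12 / τ * Real.log d) ≤ τ * n := mul_le_mul_of_nonneg_left h1 hτ.le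
    have h3 : τ * (12 / τ * Real.log d) = 12 * Real.log d := by
      rw [← mul_assoc, mul_comm τ, h12]
    linarith
  have hb2 : n₀ ≤ n := by
    have h1 : (n₀ : ℝ) ≤ n := by nlinarith
    exact_mod_cast h1
  have hq : 1 ≤ n / n₀ := (Nat.one_le_div_iff (by omega)).2 hb2
  have hn0 : 1 ≤ n := hn1.trans hb2
  set S := (range d).filter (fun k =>
    τ * (n : ℝ) ^ 2 < ‖∑ p ∈ sq n, (fourier m (V p • (y + k • x)) : ℂ)‖) with hS
  set D : ℝ := (n : ℝ) * ((n / n₀ : ℕ) : ℝ) with hD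
  have hDpos : 0 < D := by
    have h1 : (1 : ℝ) ≤ n := by exact_mod_cast hn0
    have h2 : (1 : ℝ) ≤ ((n / n₀ : ℕ) : ℝ) := by exact_mod_cast hq
    nlinarith
  have h1 : ∀ k ∈ S, τ / 4 * D ≤
      (((range n ×ˢ range (n / n₀)).filter (fun p => τ / 2 * n₀ <
        ‖∑ i ∈ range n₀, (fourier (m * 2 ^ i)
          ((2 ^ (n₀ * p.2) * 3 ^ p.1) • (y + k • x)) : ℂ)‖)).card : ℝ) := by
    intro k hk
    exact hRZU m (y + k • x) τ n n₀ hτ hn1 hb1 (mem_filter.1 hk).2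
  have h2 := sum_card_bipartiteAbove_eq_sum_card_bipartiteBelow
    (s := range d) (t := range n ×ˢ range (n / n₀))
    (fun k p => τ / 2 * n₀ < ‖∑ i ∈ range n₀, (fourier (m * 2 ^ i)
          ((2 ^ (n₀ * p.2) * 3 ^ p.1) • (y + k • x)) : ℂ)‖)
  have h3 : (S.card : ℝ) * (τ / 4 * D) ≤ D * (C0 * (d : ℝ) ^ (1 - c)) := by
    calc (S.card : ℝ) * (τ / 4 * D) = ∑ k ∈ S, (τ / 4 * D) := by
          rw [sum_const, nsmul_eq_mul]
      _ ≤ ∑ k ∈ S, (((range n ×ˢ range (n / n₀)).filter (fun p => τ / 2 * n₀ <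
          ‖∑ i ∈ range n₀, (fourier (m * 2 ^ i)
            ((2 ^ (n₀ * p.2) * 3 ^ p.1) • (y + k • x)) : ℂ)‖)).card : ℝ) :=
          sum_le_sum h1
      _ ≤ ∑ k ∈ range d, (((range n ×ˢ range (n / n₀)).filter (fun p => τ / 2 * n₀ <
          ‖∑ i ∈ range n₀, (fourier (m * 2 ^ i)
            ((2 ^ (n₀ * p.2) * 3 ^ p.1) • (y + k • x)) : ℂ)‖)).card : ℝ) :=
          sum_le_sum_of_subset_of_nonneg (filter_subset _ _) (fun _ _ _ => Nat.cast_nonneg _)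
      _ = ∑ p ∈ range n ×ˢ range (n / n₀), (((range d).filter (fun k => τ / 2 * n₀ <
          ‖∑ i ∈ range n₀, (fourier (m * 2 ^ i)
            ((2 ^ (n₀ * p.2) * 3 ^ p.1) • (y + k • x)) : ℂ)‖)).card : ℝ) := by
          exact_mod_cast h2
      _ ≤ ∑ p ∈ range n ×ˢ range (n / n₀), (C0 * (d : ℝ) ^ (1 - c)) := by
          refine sum_le_sum fun p _ => ?_
          have hr' : (2 ^ (n₀ * p.2) * 3 ^ p.1).Coprime (addOrderOf x) :=
            coprime_two_three hx (n₀ * p.2) p.1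
          have h4 := hRZK x y (2 ^ (n₀ * p.2) * 3 ^ p.1) hdpos hr' (fun w => τ / 2 * n₀ <
            ‖∑ i ∈ range n₀, (fourier (m * 2 ^ i) w : ℂ)‖)
          have h5 := hZ ((2 ^ (n₀ * p.2) * 3 ^ p.1) • y)
          refine le_trans ?_ h5
          exact_mod_cast h4
      _ = D * (C0 * (d : ℝ) ^ (1 - c)) := by
          rw [sum_const, nsmul_eq_mul, card_product, card_range, card_range, Nat.cast_mul]
  have h6 : (S.card : ℝ) * (τ / 4) ≤ C0 * (d : ℝ) ^ (1 - c) := by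
    have h7 : D * ((S.card : ℝ) * (τ / 4)) ≤ D * (C0 * (d : ℝ) ^ (1 - c)) := by linarith
    exact le_of_mul_le_mul_left h7 hDpos
  have h8 : (S.card : ℝ) ≤ (C0 * (d : ℝ) ^ (1 - c)) / (τ / 4) := by
    rw [le_div_iff₀ (by positivity)]
    exact h6
  have h9 : (C0 * (d : ℝ) ^ (1 - c)) / (τ / 4) = 4 * C0 / τ * (d : ℝ) ^ (1 - c) := by
    field_simp
  rw [h9] at h8
  exact h8.trans (mul_le_mul_of_nonneg_right hCb (Real.rpow_nonneg (Nat.cast_nonneg _) _))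

end Pool.Agent.Lib.MP_715eb0_an.RZ
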