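import Pool.Agent.Lib.MP_715eb0_an.RZ.SpecT

/-! # Module RZU: blocks in a square -/

set_option autoImplicit false

open MeasureTheory Finset

namespace Pool.Agent.Lib.MP_715eb0_an.RZ

open Pool.Agent.Lib.MP_715eb0_an
open Pool.Agent.Lib.MP_715eb0_an.SW (sq)
open Pool.Agent.Lib.MP_715eb0_an.NC (V)

namespace RZUM

lemma sum_blocks (G : ℕ → ℂ) (n₀ q : ℕ) :
    ∑ i ∈ range (n₀ * q), G i = ∑ s ∈ range q, ∑ i ∈ range n₀, G (n₀ * s + i) := by
  induction q with
  | zero => simp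
  | succ q ih =>
    rw [Nat.mul_succ, Finset.sum_range_add, ih, Finset.sum_range_succ]

lemma fourier_eq (m : ℤ) (z : T) (i a b : ℕ) (h : b = 2 ^ i * a) :
    (fourier m (b • z) : ℂ) = fourier (m * 2 ^ i) (a • z) := by
  rw [fourier_apply, fourier_apply]
  congr 2
  rw [mul_smul, h, mul_nsmul']
  have h1 : ((2 : ℤ) ^ i) = ((2 ^ i : ℕ) : ℤ) := by push_cast; rfl
  rw [h1, natCast_zsmul]

lemma norm_fourier (m : ℤ) (w : T) : ‖(fourier m w : ℂ)‖ = 1 := by
  rw [fourier_apply, Circle.norm_coe]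

end RZUM

open RZUM in
theorem specRZU : SpecRZU := by
  intro m z τ n n₀ hτ hn₀ h4 hbig
  have hn₀' : (0 : ℝ) < n₀ := by exact_mod_cast hn₀
  set q := n / n₀ with hq
  set B : ℕ × ℕ → ℝ := fun p =>
    ‖∑ i ∈ range n₀, (fourier (m * 2 ^ i) ((2 ^ (n₀ * p.2) * 3 ^ p.1) • z) : ℂ)‖ with hB
  have hqn : n₀ * q ≤ n := Nat.mul_div_le n n₀
  have hqn' : (n₀ : ℝ) * q ≤ n := by exact_mod_cast hqn
  have hB1 : ∀ p, B p ≤ n₀ := by
    intro p
    refine (norm_sum_le _ _).trans (le_of_eq ?_)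
    rw [sum_congr rfl (fun i _ => norm_fourier _ _), sum_const, card_range, nsmul_eq_mul, mul_one]
  -- one line
  have hline : ∀ j, ‖∑ i ∈ range n, (fourier m (V (i, j) • z) : ℂ)‖ ≤
      n₀ + ∑ s ∈ range q, B (j, s) := by
    intro j
    obtain ⟨r, hr⟩ := Nat.exists_eq_add_of_le hqn
    have hr1 : r < n₀ := by
      have h1 : n % n₀ < n₀ := Nat.mod_lt _ hn₀
      have h2 : n₀ * q + n % n₀ = n := Nat.div_add_mod n n₀
      omega
    have h1 : ∑ i ∈ range n, (fourier m (V (i, j) • z) : ℂ) =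
        (∑ s ∈ range q, ∑ i ∈ range n₀,
          (fourier (m * 2 ^ i) ((2 ^ (n₀ * s) * 3 ^ j) • z) : ℂ)) +
        ∑ i ∈ range r, (fourier m (V (n₀ * q + i, j) • z) : ℂ) := by
      rw [hr, Finset.sum_range_add, sum_blocks]
      congr 1
      refine sum_congr rfl fun s _ => sum_congr rfl fun i _ => ?_
      apply fourier_eq
      unfold V
      simp only
      rw [pow_add]
      ring
    rw [h1]
    refine (norm_add_le _ _).trans ?_
    have h2 : ‖∑ i ∈ range r, (fourier m (V (n₀ * q + i, j) • z) : ℂ)‖ ≤ n₀ := by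
      refine (norm_sum_le _ _).trans ?_
      rw [sum_congr rfl (fun i _ => norm_fourier _ _), sum_const, card_range, nsmul_eq_mul,
        mul_one]
      exact_mod_cast hr1.le
    have h3 : ‖∑ s ∈ range q, ∑ i ∈ range n₀,
        (fourier (m * 2 ^ i) ((2 ^ (n₀ * s) * 3 ^ j) • z) : ℂ)‖ ≤ ∑ s ∈ range q, B (j, s) :=
      norm_sum_le _ _
    linarith
  -- the square
  have hsq : ‖∑ p ∈ sq n, (fourier m (V p • z) : ℂ)‖ ≤
      n * n₀ + ∑ p ∈ range n ×ˢ range q, B p := by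
    have h1 : ∑ p ∈ sq n, (fourier m (V p • z) : ℂ) =
        ∑ j ∈ range n, ∑ i ∈ range n, (fourier m (V (i, j) • z) : ℂ) := by
      unfold SW.sq
      rw [Finset.sum_product_right]
    rw [h1]
    refine (norm_sum_le _ _).trans ((sum_le_sum fun j _ => hline j).trans (le_of_eq ?_))
    rw [sum_add_distrib, sum_const, card_range, nsmul_eq_mul, Finset.sum_product]
  -- the number of bad blocks
  have hbad : ∑ p ∈ range n ×ˢ range q, B p ≤
      (((range n ×ˢ range q).filter (fun p => τ / 2 * n₀ < B p)).card : ℝ) * n₀ +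
        (n * q : ℝ) * (τ / 2 * n₀) := by
    have h1 : ∀ p ∈ range n ×ˢ range q, B p ≤
        (if τ / 2 * n₀ < B p then (1 : ℝ) else 0) * n₀ + τ / 2 * n₀ := by
      intro p _
      have h2 := hB1 p
      have h3 : 0 ≤ τ / 2 * n₀ := by positivity
      split_ifs with hp
      · linarith
      · have := not_lt.1 hp
        linarith
    refine (sum_le_sum h1).trans (le_of_eq ?_)
    rw [sum_add_distrib, ← Finset.sum_mul, Finset.sum_boole, sum_const, card_product, card_range,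
      card_range, nsmul_eq_mul]
    push_cast
    ring
  have hn0 : (0 : ℝ) ≤ n := Nat.cast_nonneg n
  have e1 : (n : ℝ) * n₀ ≤ τ / 4 * (n : ℝ) ^ 2 := by
    have := mul_le_mul_of_nonneg_left h4 hn0
    nlinarith
  have e2 : (n * q : ℝ) * (τ / 2 * n₀) ≤ τ / 2 * (n : ℝ) ^ 2 := by
    have h1 := mul_le_mul_of_nonneg_left hqn' (mul_nonneg (by positivity : 0 ≤ τ / 2) hn0)
    nlinarith
  have e3 : τ / 4 * ((n : ℝ) * q) * n₀ ≤ τ / 4 * (n : ℝ) ^ 2 := by
    have h1 := mul_le_mul_of_nonneg_left hqn' (mul_nonneg (by positivity : 0 ≤ τ / 4) hn0)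
    nlinarith
  have e4 : τ / 4 * ((n : ℝ) * q) * n₀ ≤
      (((range n ×ˢ range q).filter (fun p => τ / 2 * n₀ < B p)).card : ℝ) * n₀ := by
    linarith
  exact le_of_mul_le_mul_right e4 hn₀'

end Pool.Agent.Lib.MP_715eb0_an.RZ
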