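import Pool.Agent.Lib.MP_715eb0_an.RZ.SpecT

/-!
# MP_715eb0_an, hive RZ: module RZW (the power saving in logarithmic time)
-/

set_option autoImplicit false

open MeasureTheory Finset

namespace Pool.Agent.Lib.MP_715eb0_an.RZ

open Pool.Agent.Lib.MP_715eb0_an
open Pool.Agent.Lib.MP_715eb0_an.SW (sq)
open Pool.Agent.Lib.MP_715eb0_an.NC (V)

namespace RZWM

theorem exists_min (s : Finset ℤ) (c : ℤ → ℝ) (h : ∀ m, 0 < c m) :
    ∃ c₀ : ℝ, 0 < c₀ ∧ c₀ ≤ 1 ∧ ∀ m ∈ s, c₀ ≤ c m := by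
  classical
  induction s using Finset.induction_on with
  | empty => exact ⟨1, one_pos, le_rfl, fun m hm => absurd hm (Finset.notMem_empty m)⟩
  | insert a s ha ih =>
    obtain ⟨c₀, h1, h2, h3⟩ := ih
    refine ⟨min c₀ (c a), lt_min h1 (h a), (min_le_left _ _).trans h2, ?_⟩
    intro m hm
    rcases Finset.mem_insert.1 hm with h4 | h4
    · rw [h4]
      exact min_le_right _ _
    · exact (min_le_left _ _).trans (h3 m h4)

end RZWM

open RZWM in
theorem specRZW (hRZT : SpecRZT) (hEMP : SW.SpecEMP) : SpecRZW := by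
  classical
  intro f ε hε
  obtain ⟨M, τ, hτ, hT⟩ := hEMP f ε hε
  have hM : ∀ m : ℤ, ∃ (c : ℝ) (C : ℕ), 0 < c ∧ (m ≠ 0 → ∀ x y : T,
    (addOrderOf x).Coprime 6 → ∀ n : ℕ, C * Real.log (addOrderOf x) ≤ n →
      (((range (addOrderOf x)).filter (fun k =>
        τ * (n : ℝ) ^ 2 < ‖∑ p ∈ sq n, (fourier m (V p • (y + k • x)) : ℂ)‖)).card : ℝ) ≤
        C * (addOrderOf x : ℝ) ^ (1 - c)) := by
    intro m
    by_cases hm : m = 0
    · exact ⟨1, 0, one_pos, fun h => absurd hm h⟩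
    · obtain ⟨c, C, hc, h⟩ := hRZT m τ hm hτ
      exact ⟨c, C, hc, fun _ => h⟩
  choose c C hc hQ using hM
  obtain ⟨ms, hms⟩ : ∃ ms : Finset ℤ, ms = (Finset.Icc (-(M : ℤ)) M).filter (fun m => m ≠ 0) :=
    ⟨_, rfl⟩
  obtain ⟨c₀, hc₀, hc₁, hcm⟩ := exists_min ms c hc
  refine ⟨c₀, 1 + ∑ m ∈ ms, C m, hc₀, ?_⟩
  intro x y hx n hn
  have hd0 : 0 < addOrderOf x := by
    rcases Nat.eq_zero_or_pos (addOrderOf x) with h | h
    · rw [h] at hx
      norm_num at hx
    · exact h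
  have hd1 : (1 : ℝ) ≤ addOrderOf x := by exact_mod_cast hd0
  have hlog : 0 ≤ Real.log (addOrderOf x) := Real.log_nonneg hd1
  have hCle : ∀ m ∈ ms, C m ≤ 1 + ∑ m ∈ ms, C m := fun m hm =>
    (Finset.single_le_sum (fun i _ => Nat.zero_le (C i)) hm).trans (Nat.le_add_left _ _)
  rcases Nat.eq_zero_or_pos n with hn0 | hn1
  · -- `n = 0`, so `x = 0`
    have h1 : (1 : ℝ) ≤ ((1 + ∑ m ∈ ms, C m : ℕ) : ℝ) := by
      exact_mod_cast Nat.le_add_right 1 _
    have h2 : Real.log (addOrderOf x) ≤ 0 := by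
      rw [hn0] at hn
      have h3 : 1 * Real.log (addOrderOf x) ≤
          ((1 + ∑ m ∈ ms, C m : ℕ) : ℝ) * Real.log (addOrderOf x) :=
        mul_le_mul_of_nonneg_right h1 hlog
      have h4 : ((0 : ℕ) : ℝ) = 0 := Nat.cast_zero
      linarith
    have h3 : addOrderOf x = 1 := by
      by_contra hne
      have h4 : (1 : ℝ) < addOrderOf x := by exact_mod_cast (by omega : 1 < addOrderOf x)
      exact absurd (Real.log_pos h4) (not_lt.mpr h2)
    have h4 : (Set.ncard {k : ℕ | k < addOrderOf x ∧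
        ε < |(∑ i ∈ range n, ∑ j ∈ range n, f ((2 ^ i * 3 ^ j) • (y + k • x))) /
          (n : ℝ) ^ 2 - ∫ t in (0 : ℝ)..1, f ((t : ℝ) : T)|} : ℝ) ≤ 1 := by
      have h5 : {k : ℕ | k < addOrderOf x ∧
        ε < |(∑ i ∈ range n, ∑ j ∈ range n, f ((2 ^ i * 3 ^ j) • (y + k • x))) /
          (n : ℝ) ^ 2 - ∫ t in (0 : ℝ)..1, f ((t : ℝ) : T)|} ⊆ ({0} : Set ℕ) := by
        rintro k ⟨hk, -⟩
        rw [h3] at hk
        rw [Set.mem_singleton_iff]
        omega
      have h6 := Set.ncard_le_ncard h5 (Set.finite_singleton 0)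
      rw [Set.ncard_singleton] at h6
      exact_mod_cast h6
    refine h4.trans ?_
    rw [h3, Nat.cast_one, Real.one_rpow, mul_one]
    exact h1
  · have hn0 : (0 : ℝ) < n := by exact_mod_cast hn1
    have hsub : {k : ℕ | k < addOrderOf x ∧
        ε < |(∑ i ∈ range n, ∑ j ∈ range n, f ((2 ^ i * 3 ^ j) • (y + k • x))) /
          (n : ℝ) ^ 2 - ∫ t in (0 : ℝ)..1, f ((t : ℝ) : T)|} ⊆
        ((ms.biUnion (fun m => (range (addOrderOf x)).filter (fun k =>
          τ * (n : ℝ) ^ 2 < ‖∑ p ∈ sq n, (fourier m (V p • (y + k • x)) : ℂ)‖)) : Finset ℕ) :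
          Set ℕ) := by
      rintro k ⟨hk, hbig⟩
      rw [Finset.mem_coe, Finset.mem_biUnion]
      by_contra hcon
      push Not at hcon
      have h4 := hT n (y + k • x) hn1 (by
        intro m hm0 hmM
        have h5 := hcon m (by rw [hms]; exact mem_filter.mpr ⟨mem_Icc.mpr (abs_le.mp hmM), hm0⟩)
        rw [mem_filter, not_and, not_lt] at h5
        exact h5 (mem_range.mpr hk))
      have h5 : ∑ p ∈ sq n, f (V p • (y + k • x)) =
          ∑ i ∈ range n, ∑ j ∈ range n, f ((2 ^ i * 3 ^ j) • (y + k • x)) := by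
        unfold SW.sq
        rw [Finset.sum_product]
        rfl
      rw [h5] at h4
      linarith
    have h2 : (Set.ncard {k : ℕ | k < addOrderOf x ∧
        ε < |(∑ i ∈ range n, ∑ j ∈ range n, f ((2 ^ i * 3 ^ j) • (y + k • x))) /
          (n : ℝ) ^ 2 - ∫ t in (0 : ℝ)..1, f ((t : ℝ) : T)|} : ℝ) ≤
        ∑ m ∈ ms, (((range (addOrderOf x)).filter (fun k =>
          τ * (n : ℝ) ^ 2 < ‖∑ p ∈ sq n, (fourier m (V p • (y + k • x)) : ℂ)‖)).card : ℝ) := by
      have h3 := Set.ncard_le_ncard hsub (Finset.finite_toSet _)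
      rw [Set.ncard_coe_finset] at h3
      have h4 := h3.trans Finset.card_biUnion_le
      exact_mod_cast h4
    refine h2.trans ?_
    have h3 : ∀ m ∈ ms, (((range (addOrderOf x)).filter (fun k =>
          τ * (n : ℝ) ^ 2 < ‖∑ p ∈ sq n, (fourier m (V p • (y + k • x)) : ℂ)‖)).card : ℝ) ≤
          C m * (addOrderOf x : ℝ) ^ (1 - c₀) := by
      intro m hm
      have hm' := hm
      rw [hms] at hm'
      have h4 := mem_filter.mp hm'
      have hle : ((C m : ℕ) : ℝ) ≤ ((1 + ∑ m ∈ ms, C m : ℕ) : ℝ) := by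
        exact_mod_cast hCle m hm
      have h5 := hQ m h4.2 x y hx n ((mul_le_mul_of_nonneg_right hle hlog).trans hn)
      refine h5.trans (mul_le_mul_of_nonneg_left ?_ (Nat.cast_nonneg _))
      exact Real.rpow_le_rpow_of_exponent_le hd1 (by linarith [hcm m hm])
    refine (Finset.sum_le_sum h3).trans ?_
    rw [← Finset.sum_mul]
    apply mul_le_mul_of_nonneg_right _ (Real.rpow_nonneg (by linarith) _)
    push_cast
    linarith

end Pool.Agent.Lib.MP_715eb0_an.RZ
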