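import Pool.Agent.Lib.MP_715eb0_an.RZ.Spec
import Pool.Agent.Lib.MP_715eb0_an.SW.Spec

/-!
# MP_715eb0_an: the power saving in full cosets, already in logarithmic time (specifications)

THEOREM. Let `f` be continuous and `ε > 0`. There are `c > 0`, `C` such that for every `x` of order `d`
prime to `6`, every `y` in `ℝ/ℤ` and every `n ≥ C log d`, for all but at most `C d^(1-c)` of the
`0 ≤ k < d` the mean of `f` over the points `2^i 3^j (y + k x)`, `i, j < n`, differs from the Lebesgue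
mean by at most `ε`.

All modules are independent: file `Pool/Agent/Lib/MP_715eb0_an/RZ/XXX.lean`, import
`Pool.Agent.Lib.MP_715eb0_an.RZ.SpecT` (and proved files), namespace
`Pool.Agent.Lib.MP_715eb0_an.RZ`, theorem `specXXX (hYYY : SpecYYY) .. : SpecXXX` with the hypotheses
in the order of USES, own lemmas in a namespace `XXXM`.
-/

set_option autoImplicit false

open MeasureTheory Finset

namespace Pool.Agent.Lib.MP_715eb0_an.RZ

open Pool.Agent.Lib.MP_715eb0_an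
open Pool.Agent.Lib.MP_715eb0_an.SW (sq)
open Pool.Agent.Lib.MP_715eb0_an.NC (V)

/-- RZN (100 lines). USES RZS. `SpecRZC` with the additional bound `n ≤ 2 log d + 1`.
PROOF. Copy `RZ/RZC.lean`: `n = 1`, or `|m| 2^n ≤ d`, so `n log 2 ≤ log d`, and `1 / log 2 ≤ 2`. -/
def SpecRZN : Prop :=
  ∀ (m : ℤ) (τ : ℝ), m ≠ 0 → 0 < τ → ∃ (c C : ℝ), 0 < c ∧ 0 < C ∧ ∀ x : T, 0 < addOrderOf x →
    ∃ n : ℕ, 1 ≤ n ∧ (n : ℝ) ≤ 2 * Real.log (addOrderOf x) + 1 ∧
      ∀ z₀ : T, (((range (addOrderOf x)).filter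
        (fun k => τ * n < ‖∑ i ∈ range n, (fourier (m * 2 ^ i) (z₀ + k • x) : ℂ)‖)).card : ℝ) ≤
          C * (addOrderOf x : ℝ) ^ (1 - c)

/-- RZU (130 lines). USES nothing. A large sum over a square has many large blocks.
PROOF. `q = n / n₀`, `n = n₀ q + r`, `r < n₀`. The sum over the square is
`Σ_{j < n} Σ_{i < n} e(m 2^i 3^j z)`, and for each `j` the `i < n₀ q` are the `i = n₀ s + i'`, `s < q`,
`i' < n₀` (induction on `q`), `e(m 2^i 3^j z) = fourier (m 2^i') ((2^(n₀ s) 3^j) • z)`. So its norm is at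
most `n r + Σ_{j, s} |B(j, s)|`, `B` the blocks, `|B| ≤ n₀`. `n r ≤ n n₀ ≤ (τ/4) n²`, so
`Σ |B| > (3/4) τ n²`; and `Σ |B| ≤ #bad n₀ + (τ/2) n₀ n q ≤ #bad n₀ + (τ/2) n²`. So
`#bad n₀ > (τ/4) n² ≥ (τ/4) n q n₀`. -/
def SpecRZU : Prop :=
  ∀ (m : ℤ) (z : T) (τ : ℝ) (n n₀ : ℕ), 0 < τ → 1 ≤ n₀ → 4 * (n₀ : ℝ) ≤ τ * n →
    τ * (n : ℝ) ^ 2 < ‖∑ p ∈ sq n, (fourier m (V p • z) : ℂ)‖ →
      τ / 4 * ((n : ℝ) * ((n / n₀ : ℕ) : ℝ)) ≤
        (((range n ×ˢ range (n / n₀)).filter (fun p => τ / 2 * n₀ <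
          ‖∑ i ∈ range n₀, (fourier (m * 2 ^ i) ((2 ^ (n₀ * p.2) * 3 ^ p.1) • z) : ℂ)‖)).card : ℝ)

/-- RZT (140 lines). USES RZN, RZK, RZU (in this order). Exponential sums over squares of times.
PROOF. `d` the order of `x`; `c`, `C`, `n₀` from RZN for `m`, `τ / 2`; the new `C` is an integer
`≥ 1`, `≥ 12 / τ + 12` and `≥ 4 C / τ`. If `d = 1` the left side is at most `1`. Otherwise `d ≥ 5`,
`log d ≥ 1`, `n₀ ≤ 3 log d`, so `4 n₀ ≤ τ n` and `n₀ ≤ n`, `q = n / n₀ ≥ 1`. By RZU every `k` of the set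
has at least `(τ/4) n q` pairs `(j, s)`, `j < n`, `s < q`, with a block `> (τ/2) n₀`
at `r • (y + k • x)`, `r = 2^(n₀ s) 3^j` (prime to `d`). For every pair RZK and RZN (`z₀ = r • y`) give
at most `C d^(1-c)` numbers `k < d`. Double counting: `#{k} (τ/4) n q ≤ n q C d^(1-c)`. -/
def SpecRZT : Prop :=
  ∀ (m : ℤ) (τ : ℝ), m ≠ 0 → 0 < τ → ∃ (c : ℝ) (C : ℕ), 0 < c ∧ ∀ x y : T,
    (addOrderOf x).Coprime 6 → ∀ n : ℕ, C * Real.log (addOrderOf x) ≤ n →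
      (((range (addOrderOf x)).filter (fun k =>
        τ * (n : ℝ) ^ 2 < ‖∑ p ∈ sq n, (fourier m (V p • (y + k • x)) : ℂ)‖)).card : ℝ) ≤
        C * (addOrderOf x : ℝ) ^ (1 - c)

/-- RZW (130 lines). USES RZT, `SW.SpecEMP` (in this order). THE THEOREM.
PROOF. As `SW/FIW.lean` (there: `V p`, `sq n` and the double sum): `M, τ` from EMP for `f, ε`; if
`n ≥ 1` every `k` of the set has an `m`, `0 < |m| ≤ M`, with `τ n² < ‖∑_{p ∈ sq n} ..‖`; the number is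
at most the sum over these `m` of the bounds of RZT; `c` the minimum of `1` and the constants, `C` the
maximum of `1` and the sum of the constants (`C ≥ C_m` for every `m`). If `n = 0`, then `log d = 0`
(take `C ≥ 1`), `d = 1`, and the left side is at most `1 ≤ C`. -/
def SpecRZW : Prop :=
  ∀ (f : C(T, ℝ)) (ε : ℝ), 0 < ε → ∃ (c : ℝ) (C : ℕ), 0 < c ∧ ∀ x y : T,
    (addOrderOf x).Coprime 6 → ∀ n : ℕ, C * Real.log (addOrderOf x) ≤ n →
      (Set.ncard {k : ℕ | k < addOrderOf x ∧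
        ε < |(∑ i ∈ range n, ∑ j ∈ range n, f ((2 ^ i * 3 ^ j) • (y + k • x))) /
          (n : ℝ) ^ 2 - ∫ t in (0 : ℝ)..1, f ((t : ℝ) : T)|} : ℝ) ≤
        C * (addOrderOf x : ℝ) ^ (1 - c)

end Pool.Agent.Lib.MP_715eb0_an.RZ
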