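import Pool.Agent.Lib.MP_715eb0_an.RZ.Final
import Pool.Agent.Lib.MP_715eb0_an.RZ.SpecT
import Pool.Agent.Lib.MP_715eb0_an.RZ.RZN
import Pool.Agent.Lib.MP_715eb0_an.RZ.RZU
import Pool.Agent.Lib.MP_715eb0_an.RZ.RZT
import Pool.Agent.Lib.MP_715eb0_an.RZ.RZW
import Pool.Agent.Lib.MP_715eb0_an.SW.EMP

/-!
# MP_715eb0_an: a power saving for the exceptional set in full cosets, in logarithmic time
-/

set_option autoImplicit false

open MeasureTheory Finset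

namespace Pool.Agent.Lib.MP_715eb0_an.RZ

open Pool.Agent.Lib.MP_715eb0_an

/-- The theorem in logarithmic time. -/
theorem mainW : SpecRZW :=
  specRZW (specRZT (specRZN (specRZS (specRZB (specRZA specRZP specRZG)))) specRZK specRZU)
    (SW.specEMP SI.specTRG)

/-- Both forms with the same constants. -/
theorem main3 : ∀ (f : C(T, ℝ)) (ε : ℝ), 0 < ε → ∃ (c : ℝ) (C : ℕ), 0 < c ∧ ∀ x y : T,
    (addOrderOf x).Coprime 6 →
      (∀ n : ℕ, C * Real.log (addOrderOf x) ≤ n →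
        (Set.ncard {k : ℕ | k < addOrderOf x ∧
          ε < |(∑ i ∈ range n, ∑ j ∈ range n, f ((2 ^ i * 3 ^ j) • (y + k • x))) /
            (n : ℝ) ^ 2 - ∫ t in (0 : ℝ)..1, f ((t : ℝ) : T)|} : ℝ) ≤
          C * (addOrderOf x : ℝ) ^ (1 - c)) ∧
      (Set.ncard {k : ℕ | k < addOrderOf x ∧ ∃ μ : Measure T, Erg μ ∧ μ {y + k • x} ≠ 0 ∧
        ε < |∫ t, f t ∂μ - ∫ t in (0 : ℝ)..1, f ((t : ℝ) : T)|} : ℝ) ≤
        C * (addOrderOf x : ℝ) ^ (1 - c) := by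
  intro f ε hε
  obtain ⟨c₁, C₁, hc₁, h₁⟩ := mainW f ε hε
  obtain ⟨c₂, C₂, hc₂, h₂⟩ := main f ε hε
  refine ⟨min c₁ c₂, max C₁ ⌈C₂⌉₊, lt_min hc₁ hc₂, fun x y hx => ?_⟩
  have hd : 0 < addOrderOf x := by
    rcases Nat.eq_zero_or_pos (addOrderOf x) with h | h
    · rw [h] at hx
      norm_num at hx
    · exact h
  have hd1 : (1 : ℝ) ≤ addOrderOf x := by exact_mod_cast hd
  have hCC₁ : (C₁ : ℝ) ≤ ((max C₁ ⌈C₂⌉₊ : ℕ) : ℝ) := by exact_mod_cast le_max_left _ _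
  have hCC₂ : C₂ ≤ ((max C₁ ⌈C₂⌉₊ : ℕ) : ℝ) :=
    (Nat.le_ceil C₂).trans (by exact_mod_cast le_max_right _ _)
  have hp₁ : (addOrderOf x : ℝ) ^ (1 - c₁) ≤ (addOrderOf x : ℝ) ^ (1 - min c₁ c₂) :=
    Real.rpow_le_rpow_of_exponent_le hd1 (by linarith [min_le_left c₁ c₂])
  have hp₂ : (addOrderOf x : ℝ) ^ (1 - c₂) ≤ (addOrderOf x : ℝ) ^ (1 - min c₁ c₂) :=
    Real.rpow_le_rpow_of_exponent_le hd1 (by linarith [min_le_right c₁ c₂])
  have h0₂ : 0 ≤ (addOrderOf x : ℝ) ^ (1 - c₂) := Real.rpow_nonneg (by linarith) _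
  refine ⟨fun n hn => ?_, ?_⟩
  · refine (h₁ x y hx n (le_trans ?_ hn)).trans ?_
    · exact mul_le_mul_of_nonneg_right hCC₁ (Real.log_natCast_nonneg _)
    · exact mul_le_mul hCC₁ hp₁ (Real.rpow_nonneg (by linarith) _) (Nat.cast_nonneg _)
  · refine (h₂ x y hx).trans ?_
    exact mul_le_mul hCC₂ hp₂ h0₂ (Nat.cast_nonneg _)

end Pool.Agent.Lib.MP_715eb0_an.RZ
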