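import Pool.Agent.Lib.MP_715eb0_an.RZ.Spec

/-! # Module RZD: double counting -/

set_option autoImplicit false

open MeasureTheory Finset

namespace Pool.Agent.Lib.MP_715eb0_an.RZ

open Pool.Agent.Lib.MP_715eb0_an

namespace RZDM

lemma R_coprime {q h : ℕ} (hq : q.Coprime 6) (hh : h ∈ R q) : h.Coprime q := by
  obtain ⟨i, j, hij⟩ := (mem_R (pos_of_coprime hq)).1 hh
  have h1 := coprime_two_three hq i j
  rw [← hij]
  exact (Nat.ModEq.gcd_eq (Nat.mod_modEq _ _)).trans h1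

lemma norm_sum_le' (m : ℤ) (n : ℕ) (w : T) :
    ‖∑ i ∈ range n, (fourier (m * 2 ^ i) w : ℂ)‖ ≤ n := by
  refine (norm_sum_le _ _).trans (le_of_eq ?_)
  have h1 : ∀ i ∈ range n, ‖(fourier (m * 2 ^ i) w : ℂ)‖ = 1 := by
    intro i _
    rw [fourier_apply, Circle.norm_coe]
  rw [sum_congr rfl h1, sum_const, card_range, nsmul_eq_mul, mul_one]

lemma key {RQ : Finset ℕ} (hN0 : 0 < RQ.card) {n : ℕ} (hn : 1 ≤ n) {τ : ℝ}
    (a : ℕ → ℂ) (ha : ∀ r ∈ RQ, ‖a r‖ ≤ n)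
    (h : τ < ‖(RQ.card : ℂ)⁻¹ * ∑ r ∈ RQ, (n : ℂ)⁻¹ * a r‖) :
    τ / 2 * RQ.card ≤ ((RQ.filter (fun r => τ / 2 * n < ‖a r‖)).card : ℝ) := by
  have hn0 : (0 : ℝ) < n := by exact_mod_cast hn
  have hN : (0 : ℝ) < RQ.card := by exact_mod_cast hN0
  by_cases hτ : τ < 0
  · have h1 : (0 : ℝ) ≤ ((RQ.filter (fun r => τ / 2 * n < ‖a r‖)).card : ℝ) := Nat.cast_nonneg _
    nlinarith
  have hτ0 : 0 ≤ τ := not_lt.1 hτ
  have h1 : ‖∑ r ∈ RQ, (n : ℂ)⁻¹ * a r‖ ≤
      ∑ r ∈ RQ, ((if τ / 2 * n < ‖a r‖ then (1 : ℝ) else 0) + τ / 2) := by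
    refine (norm_sum_le _ _).trans (sum_le_sum fun r hr => ?_)
    rw [norm_mul, norm_inv, Complex.norm_natCast]
    split_ifs with hP
    · have : (n : ℝ)⁻¹ * ‖a r‖ ≤ 1 := by
        rw [inv_mul_le_iff₀ hn0, mul_one]
        exact ha r hr
      linarith
    · have : (n : ℝ)⁻¹ * ‖a r‖ ≤ τ / 2 := by
        rw [inv_mul_le_iff₀ hn0]
        have := not_lt.1 hP
        linarith
      linarith
  rw [sum_add_distrib, sum_const, nsmul_eq_mul, Finset.sum_boole] at h1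
  rw [norm_mul, norm_inv, Complex.norm_natCast, inv_mul_eq_div, lt_div_iff₀ hN] at h
  linarith

end RZDM

open RZDM in
theorem specRZD (hRZC : SpecRZC) (hRZM : SpecRZM) (hRZK : SpecRZK) : SpecRZD := by
  intro m τ hm hτ
  obtain ⟨c, C, hc, hC, h⟩ := hRZC m (τ / 2) hm (by positivity)
  refine ⟨c, 2 / τ * C, hc, by positivity, ?_⟩
  intro x y hx hy
  obtain ⟨n, hn, hZ⟩ := h x (pos_of_coprime hx)
  have hQ : (addOrderOf x * addOrderOf y).Coprime 6 := Nat.Coprime.mul_left hx hy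
  have hN0 : 0 < (R (addOrderOf x * addOrderOf y)).card := cnt_pos (pos_of_coprime hQ)
  have hN : (0 : ℝ) < ((R (addOrderOf x * addOrderOf y)).card : ℝ) := by exact_mod_cast hN0
  set Q := addOrderOf x * addOrderOf y with hQdef
  set S := (range (addOrderOf x)).filter
    (fun k => τ < ‖∫ t, (fourier m t : ℂ) ∂(U (Orb (y + k • x)))‖) with hS
  have h1 : ∀ k ∈ S, τ / 2 * (R Q).card ≤ (((R Q).filter (fun r => τ / 2 * n <
      ‖∑ i ∈ range n, (fourier (m * 2 ^ i) (r • (y + k • x)) : ℂ)‖)).card : ℝ) := by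
    intro k hk
    have hk' := (mem_filter.1 hk).2
    have hz : Q • (y + k • x) = 0 := by
      rw [nsmul_add, hQdef, mul_nsmul', addOrderOf_nsmul_eq_zero, nsmul_zero, zero_add,
        nsmul_left_comm, mul_nsmul, addOrderOf_nsmul_eq_zero, nsmul_zero, nsmul_zero]
    rw [hRZM Q hQ (y + k • x) hz m n hn] at hk'
    exact key hN0 hn
      (fun r => ∑ i ∈ range n, (fourier (m * 2 ^ i) (r • (y + k • x)) : ℂ))
      (fun r _ => norm_sum_le' m n _) hk'
  have h2 := sum_card_bipartiteAbove_eq_sum_card_bipartiteBelow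
    (s := range (addOrderOf x)) (t := R Q)
    (fun k r => τ / 2 * n < ‖∑ i ∈ range n, (fourier (m * 2 ^ i) (r • (y + k • x)) : ℂ)‖)
  have h3 : (S.card : ℝ) * (τ / 2 * (R Q).card) ≤
      (R Q).card * (C * (addOrderOf x : ℝ) ^ (1 - c)) := by
    calc (S.card : ℝ) * (τ / 2 * (R Q).card) = ∑ k ∈ S, (τ / 2 * (R Q).card) := by
          rw [sum_const, nsmul_eq_mul]
      _ ≤ ∑ k ∈ S, (((R Q).filter (fun r => τ / 2 * n <
          ‖∑ i ∈ range n, (fourier (m * 2 ^ i) (r • (y + k • x)) : ℂ)‖)).card : ℝ) :=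
          sum_le_sum h1
      _ ≤ ∑ k ∈ range (addOrderOf x), (((R Q).filter (fun r => τ / 2 * n <
          ‖∑ i ∈ range n, (fourier (m * 2 ^ i) (r • (y + k • x)) : ℂ)‖)).card : ℝ) :=
          sum_le_sum_of_subset_of_nonneg (filter_subset _ _) (fun _ _ _ => Nat.cast_nonneg _)
      _ = ∑ r ∈ R Q, (((range (addOrderOf x)).filter (fun k => τ / 2 * n <
          ‖∑ i ∈ range n, (fourier (m * 2 ^ i) (r • (y + k • x)) : ℂ)‖)).card : ℝ) := by
          exact_mod_cast h2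
      _ ≤ ∑ r ∈ R Q, (C * (addOrderOf x : ℝ) ^ (1 - c)) := by
          refine sum_le_sum fun r hr => ?_
          have hr' : r.Coprime (addOrderOf x) :=
            (R_coprime hQ hr).coprime_dvd_right (dvd_mul_right _ _)
          have h4 := hRZK x y r (pos_of_coprime hx) hr' (fun w => τ / 2 * n <
            ‖∑ i ∈ range n, (fourier (m * 2 ^ i) w : ℂ)‖)
          have h5 := hZ (r • y)
          refine le_trans ?_ h5
          exact_mod_cast h4
      _ = (R Q).card * (C * (addOrderOf x : ℝ) ^ (1 - c)) := by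
          rw [sum_const, nsmul_eq_mul]
  have h6 : (S.card : ℝ) * (τ / 2) ≤ C * (addOrderOf x : ℝ) ^ (1 - c) := by
    have h7 : (R Q).card * ((S.card : ℝ) * (τ / 2)) ≤
        (R Q).card * (C * (addOrderOf x : ℝ) ^ (1 - c)) := by linarith
    exact le_of_mul_le_mul_left h7 hN
  have h8 : (S.card : ℝ) ≤ (C * (addOrderOf x : ℝ) ^ (1 - c)) / (τ / 2) := by
    rw [le_div_iff₀ (by positivity)]
    exact h6
  refine h8.trans (le_of_eq ?_)
  field_simp

end Pool.Agent.Lib.MP_715eb0_an.RZ
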