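import Pool.Agent.Lib.MP_715eb0_an.SI.Spec

/-!
# MP_715eb0_an: a power saving for the exceptional set in full cosets (specifications)

THEOREM. Let `f` be continuous and `ε > 0`. There are `c > 0`, `C` such that for every `x` of order `d`
prime to `6` and every `y` in `ℝ/ℤ`, for all but at most `C d^(1-c)` of the `0 ≤ k < d` the measure of
the question with the atom `y + k x` (if there is one) integrates `f` up to `ε` like the Lebesgue
measure. Proof: Riesz products.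

All modules are independent: file `Pool/Agent/Lib/MP_715eb0_an/RZ/XXX.lean`, import
`Pool.Agent.Lib.MP_715eb0_an.RZ.Spec` (and proved files, e.g. `SI/MOM.lean`, `SI/FIN.lean`,
`SW/FIY.lean`), namespace `Pool.Agent.Lib.MP_715eb0_an.RZ`, theorem
`specXXX (hYYY : SpecYYY) .. : SpecXXX` with the hypotheses in the order of USES, own lemmas in a
namespace `XXXM`.
-/

set_option autoImplicit false

open MeasureTheory Finset

namespace Pool.Agent.Lib.MP_715eb0_an.RZ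

open Pool.Agent.Lib.MP_715eb0_an

/-- The term `Re (u e(m 2^i z))`. -/
noncomputable def g (m : ℤ) (u : ℂ) (i : ℕ) (z : T) : ℝ := (u * (fourier (m * 2 ^ i) z : ℂ)).re

/-- RZP (90 lines). USES nothing. Signed sums of powers of two from one parity class.
PROOF. Let `j` be the maximum of `S`. Every other element has the parity of `j` and is `< j`, so it is
`≤ j - 2`, and the sum of the `2^i` over the others is at most `Σ_{i < j - 1} 2^i < 2^(j-1)`
(`Finset.sum_le_sum_of_subset`, `Nat.geomSum_eq`; for `j ≤ 1` there are no others). So `|a| ≥ 2^j - 2^(j-1)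
> 0` and `|a| < 2^j + 2^(j-1) < 2^(j+1) ≤ 2^n`. -/
def SpecRZP : Prop :=
  ∀ (n b : ℕ) (S S' : Finset ℕ), S' ⊆ S → S.Nonempty → (∀ i ∈ S, i < n ∧ i % 2 = b) →
    (∑ i ∈ S', (2 : ℤ) ^ i - ∑ i ∈ S \ S', (2 : ℤ) ^ i) ≠ 0 ∧
      |∑ i ∈ S', (2 : ℤ) ^ i - ∑ i ∈ S \ S', (2 : ℤ) ^ i| < 2 ^ n

/-- RZG (80 lines). USES nothing. A character has mean `0` over a coset.
PROOF. `e(a (z₀ + k x)) = e(a z₀) w^k`, `w = fourier a x`, `w ≠ 1` (`fourier a x = 1` iff `a • x = 0` iff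
`d ∣ a`, `addOrderOf_dvd_iff_zsmul_eq_zero`; `AddCircle.injective_toCircle`), `w^d = 1`
(`d • x = 0`); the geometric sum is `0` (`geom_sum_eq`, or `mul_geom_sum`). -/
def SpecRZG : Prop :=
  ∀ (x z₀ : T) (a : ℤ), 0 < addOrderOf x → ¬ ((addOrderOf x : ℤ) ∣ a) →
    ∑ k ∈ range (addOrderOf x), (fourier a (z₀ + k • x) : ℂ) = 0

/-- RZA (150 lines). USES RZP, RZG (in this order). The mean of a Riesz product over a coset is `1`.
PROOF. In `ℂ`: `1 + l g = 1 + (A_i + B_i)`, `A_i = (l/2) u e(m 2^i z)`, `B_i = (l/2) conj u e(-m 2^i z)`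
(the conjugate). Expand the product over `I` (`Finset.prod_one_add`, then `Finset.prod_add`): it is
the sum over `S ⊆ I`, `S' ⊆ S` of `(l/2)^|S| u^|S'| (conj u)^|S \ S'| e(m a z)`,
`a = Σ_{S'} 2^i - Σ_{S \ S'} 2^i`. If `S ≠ ∅`, by RZP `0 < |m a| < |m| 2^n ≤ d`, so `d ∤ m a`
(`Int.eq_zero_of_abs_lt_dvd`) and the sum over `k` is `0` by RZG. The term `S = ∅` gives `d`. -/
def SpecRZA : Prop :=
  ∀ (x z₀ : T) (m : ℤ) (n b : ℕ) (u : ℂ) (l : ℝ) (I : Finset ℕ), m ≠ 0 → 0 < addOrderOf x →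
    (|m| : ℤ) * 2 ^ n ≤ addOrderOf x → (∀ i ∈ I, i < n ∧ i % 2 = b) →
      ∑ k ∈ range (addOrderOf x), ∏ i ∈ I, (1 + l * g m u i (z₀ + k • x)) = addOrderOf x

/-- RZB (110 lines). USES RZA. Large deviations.
PROOF. `|g| ≤ 1`. Put `l = σ / 4 ≤ 1/4`. `1 + t ≥ exp (t - 2 t²)` for `|t| ≤ 1/2`
(`Real.abs_log_sub_add_sum_range_le` for `-t` and `n = 1`: `|-t + log (1 + t)| ≤ t² / (1 - |t|) ≤
2 t²`), so every product is positive and `∏ (1 + l g) ≥ exp (l Σ g - 2 l² |I|)`. For the `k` of the set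
this is at least `exp ((l σ - 2 l²) |I|) = exp (σ² |I| / 8)`, and by RZA the sum over all `k` is `d`. -/
def SpecRZB : Prop :=
  ∀ (x z₀ : T) (m : ℤ) (n b : ℕ) (u : ℂ) (σ : ℝ) (I : Finset ℕ), m ≠ 0 → 0 < addOrderOf x →
    (|m| : ℤ) * 2 ^ n ≤ addOrderOf x → (∀ i ∈ I, i < n ∧ i % 2 = b) → ‖u‖ = 1 → 0 < σ → σ ≤ 1 →
      (((range (addOrderOf x)).filter
        (fun k => σ * #I ≤ ∑ i ∈ I, g m u i (z₀ + k • x))).card : ℝ) ≤
        addOrderOf x * Real.exp (-(σ ^ 2 * #I / 8))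

/-- RZS (120 lines). USES RZB. All `u` and both classes.
PROOF. Put `σ = min (τ / 2) 1`. If `τ n < ‖Σ_{i < n} e(m 2^i z)‖` (`z = z₀ + k • x`), then for one of the
four numbers `u` in `{1, -1, I, -I}` `Σ_{i < n} g m u i z > (τ / 2) n ≥ σ n`
(`Complex.norm_le_abs_re_add_abs_im`), and for one of the two sets `I_b = {i < n : i % 2 = b}`, `b < 2`,
`Σ_{i ∈ I_b} g ≥ σ |I_b|`; `|I_b| ≥ n / 4` (`n ≥ 2`). RZB in these eight cases. -/
def SpecRZS : Prop :=
  ∀ (x z₀ : T) (m : ℤ) (n : ℕ) (τ σ : ℝ), m ≠ 0 → 0 < addOrderOf x → 2 ≤ n →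
    (|m| : ℤ) * 2 ^ n ≤ addOrderOf x → 0 < σ → σ ≤ 1 → 2 * σ ≤ τ →
      (((range (addOrderOf x)).filter
        (fun k => τ * n < ‖∑ i ∈ range n, (fourier (m * 2 ^ i) (z₀ + k • x) : ℂ)‖)).card : ℝ) ≤
        8 * (addOrderOf x * Real.exp (-(σ ^ 2 * n / 32)))

/-- RZC (110 lines). USES RZS. Exponential sums over the powers of two.
PROOF. `d` the order of `x`, `σ = min (τ / 2) 1`, `c = σ² / 32` (`≤ 1`). For `d < 16 |m|` take `n = 1`: the
left side is at most `d = d^c d^(1-c) ≤ 16 |m| d^(1-c)`. Otherwise let `n = Nat.log 2 (d / |m|)`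
(natural division, `|m|` the `natAbs`), so `2^n |m| ≤ d`, `n ≥ 4`, and `d / |m| < 2^(n+1)` as real
numbers (`Nat.lt_pow_succ_log_self`), so `n + 1 ≥ log (d / |m|) / log 2 ≥ log d - log |m|`
(`log 2 ≤ 1`). RZS: the number is at most `8 d exp (-c n) ≤ 8 exp (c (1 + log |m|)) d^(1-c)`. -/
def SpecRZC : Prop :=
  ∀ (m : ℤ) (τ : ℝ), m ≠ 0 → 0 < τ → ∃ (c C : ℝ), 0 < c ∧ 0 < C ∧ ∀ x : T, 0 < addOrderOf x →
    ∃ n : ℕ, 1 ≤ n ∧ ∀ z₀ : T, (((range (addOrderOf x)).filter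
      (fun k => τ * n < ‖∑ i ∈ range n, (fourier (m * 2 ^ i) (z₀ + k • x) : ℂ)‖)).card : ℝ) ≤
        C * (addOrderOf x : ℝ) ^ (1 - c)

/-- RZM (110 lines). USES `SI.SpecAVG`. Averaging along the orbit of the doubling.
PROOF. For every `i`, `∫ fourier m dU(Orb z) = (cnt q)⁻¹ Σ_{r ∈ R q} fourier (m 2^i) (r • z)`:
`SI.MOMM.integral_eq` for `m`, and the map `r ↦ 2^i r % q` is a bijection of `R q` (`q` is prime to `2`,
`q • z = 0`; see `R` in `FiniteOrbits` and `SI/AVG.lean`); or by induction on `i`, since `U (Orb z)` is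
invariant under `w ↦ 2 • w`: `∫ fourier m' dU = ∫ fourier m' (2 • w) dU = ∫ fourier (2 m') dU`, so
`∫ fourier m dU = ∫ fourier (m 2^i) dU` and `SI.MOMM.integral_eq` for `m 2^i`. Take the mean over
`i < n`. -/
def SpecRZM : Prop :=
  ∀ (q : ℕ), q.Coprime 6 → ∀ (z : T), q • z = 0 → ∀ (m : ℤ) (n : ℕ), 1 ≤ n →
    ∫ t, (fourier m t : ℂ) ∂(U (Orb z)) =
      (cnt q : ℂ)⁻¹ * ∑ r ∈ R q, (n : ℂ)⁻¹ * ∑ i ∈ range n, (fourier (m * 2 ^ i) (r • z) : ℂ)

/-- RZK (60 lines). USES nothing. Change of the parameter.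
PROOF. `r • (y + k • x) = r • y + (r k % d) • x` and `k ↦ r k % d` is injective on `range d`
(`Finset.card_le_card_of_injOn`). -/
def SpecRZK : Prop :=
  ∀ (x y : T) (r : ℕ), 0 < addOrderOf x → r.Coprime (addOrderOf x) → ∀ (P : T → Prop),
    ∀ [DecidablePred P],
      ((range (addOrderOf x)).filter (fun k => P (r • (y + k • x)))).card ≤
        ((range (addOrderOf x)).filter (fun k => P (r • y + k • x))).card

/-- RZD (130 lines). USES RZC, RZM, RZK (in this order). Double counting.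
PROOF. `d` the order of `x`, `Q = d * addOrderOf y` (prime to `6`), `z_k = y + k • x`, `Q • z_k = 0`;
`c`, `C`, `n` from RZC for `m` and `τ / 2`; `A(w) = n⁻¹ Σ_{i < n} fourier (m 2^i) w`, `|A| ≤ 1`. By RZM
the integral is `(cnt Q)⁻¹ Σ_{r ∈ R Q} A(r • z_k)`, `|R Q| = cnt Q`; if its norm is `> τ`, then
`|A(r • z_k)| > τ / 2` for at least `(τ / 2) cnt Q` of the `r ∈ R Q`. For fixed `r ∈ R Q` (prime to `Q`,
so to `d`) RZK and RZC with `z₀ = r • y` give at most `C d^(1-c)` numbers `k < d` with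
`|A(r • z_k)| > τ / 2`. Double counting: `#{k} (τ / 2) cnt Q ≤ cnt Q C d^(1-c)`. -/
def SpecRZD : Prop :=
  ∀ (m : ℤ) (τ : ℝ), m ≠ 0 → 0 < τ → ∃ (c C : ℝ), 0 < c ∧ 0 < C ∧ ∀ x y : T,
    (addOrderOf x).Coprime 6 → (addOrderOf y).Coprime 6 →
      (((range (addOrderOf x)).filter
        (fun k => τ < ‖∫ t, (fourier m t : ℂ) ∂(U (Orb (y + k • x)))‖)).card : ℝ) ≤
        C * (addOrderOf x : ℝ) ^ (1 - c)

/-- RZE (140 lines). USES RZD, `SI.SpecTRG` (in this order). THE THEOREM.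
PROOF. As `SW/FIY.lean`: if some `k` is in the set, the orders of `y + k • x` and of `y` are prime to
`6` (`SW.FIYM.order_atom`, `SW.FIYM.order_sub`); otherwise the set is empty. `M, τ` from TRG for
`f, ε`; every `k` of the set has an `m` with `0 < |m| ≤ M` and
`τ < ‖∫ fourier m dU(Orb (y + k • x))‖` (the measures with this atom are `U (Orb (y + k • x))`:
`classify`, `U_singleton`, `Orb_eq`). So the number is at most the sum over these `m` of the bounds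
of RZD; `c` the minimum of `1` and the constants, `C` the sum (`d ≥ 1`). -/
def SpecRZE : Prop :=
  ∀ (f : C(T, ℝ)) (ε : ℝ), 0 < ε → ∃ (c C : ℝ), 0 < c ∧ ∀ x y : T, (addOrderOf x).Coprime 6 →
    (Set.ncard {k : ℕ | k < addOrderOf x ∧ ∃ μ : Measure T, Erg μ ∧ μ {y + k • x} ≠ 0 ∧
      ε < |∫ t, f t ∂μ - ∫ t in (0 : ℝ)..1, f ((t : ℝ) : T)|} : ℝ) ≤
      C * (addOrderOf x : ℝ) ^ (1 - c)

end Pool.Agent.Lib.MP_715eb0_an.RZ
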